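import Pool.Agent.Q208.OP.CNJ

/-!
# Project OP: conjugation, the statement CNJ
-/

set_option autoImplicit false

namespace Pool.Agent.Q208.OP

open Pool.Agent.W277.UH Polynomial
open Pool.Agent.Y706.CH (bK)
open Pool.Agent.Q103.OP

universe u v

section

variable {K : Type u} [Field K]

lemma cj_exists' {d : ℕ} {a b c e : K} (h : a * e - b * c ≠ 0) {p q : K[X]} (hR : Rat d p q) :
    ∃ u w : K[X], Rat d u w ∧ CJ d a b c e p q u w := by
  obtain ⟨u, w, hu, hw, hj⟩ := cj_exists (d := d) h p q
  refine ⟨u, w, ?_, h, ?_⟩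
  · apply rat_of_ne hu hw (L := AlgebraicClosure K)
    intro Z hZ
    rw [hj (algebraMap K (AlgebraicClosure K)) Z]
    apply lm_ne
    · rw [← map_mul, ← map_mul, ← map_sub]
      exact (_root_.map_ne_zero _).mpr h
    · apply rat_bK_ne (rat_map hR _)
      apply lm_ne _ hZ
      rw [← map_mul, ← map_mul, ← map_sub]
      exact (_root_.map_ne_zero _).mpr (det_inv h)
  · intro Z
    have h1 := hj (RingHom.id K) (lm a b c e Z)
    simp only [Polynomial.map_id, RingHom.id_apply] at h1
    rw [h1, lm_inv' h]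

/-- polynomials whose coefficients lie in a subfield -/
lemma lift_sub (κ : Subfield K) (f : K[X]) (h : ∀ n, f.coeff n ∈ κ) :
    ∃ g : κ[X], g.map (algebraMap κ K) = f ∧ g.natDegree = f.natDegree := by
  have h1 : f ∈ Polynomial.lifts (algebraMap κ K) := by
    rw [Polynomial.lifts_iff_coeff_lifts]
    intro n
    exact ⟨⟨f.coeff n, h n⟩, rfl⟩
  obtain ⟨g, hg⟩ := (Polynomial.mem_lifts _).mp h1
  refine ⟨g, hg, ?_⟩
  rw [← hg, natDegree_map]

lemma hc_C_mul' [Infinite K] (n : ℕ) (a : K) (f l t : K[X]) :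
    hc n (C a * f) l t = C a * hc n f l t := by
  apply Polynomial.funext
  intro x
  rw [eval_mul, eval_C, hc_eval, hc_eval, hev_C_mul']

lemma cj_const [Infinite K] {d : ℕ} {a b c e : K} {p q u w : K[X]} (hRp : Rat d p q)
    (hR : Rat d u w) (h : CJ d a b c e p q u w) (κ : Subfield K) (s : K) (hs : s ≠ 0)
    (hκ : ∀ n, s * u.coeff n ∈ κ ∧ s * w.coeff n ∈ κ) : ConjConst κ p q d := by
  obtain ⟨u0, hu0, hu0d⟩ := lift_sub κ (C s * u) (fun n => by rw [coeff_C_mul]; exact (hκ n).1)
  obtain ⟨w0, hw0, hw0d⟩ := lift_sub κ (C s * w) (fun n => by rw [coeff_C_mul]; exact (hκ n).2)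
  obtain ⟨h1, h2⟩ := cj_poly (rat_degp hRp) (rat_degq hRp) h.2
  refine ⟨a, b, c, e, h.1, u0, w0, ?_, ?_, ?_, ?_⟩
  · by_contra hcon
    push Not at hcon
    rw [hcon.1, Polynomial.map_zero] at hu0
    rw [hcon.2, Polynomial.map_zero] at hw0
    have e1 : u = 0 := by
      have := hu0.symm
      rw [mul_eq_zero] at this
      exact this.resolve_left (C_ne_zero.mpr hs)
    have e2 : w = 0 := by
      have := hw0.symm
      rw [mul_eq_zero] at this
      exact this.resolve_left (C_ne_zero.mpr hs)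
    have := hR.1
    rw [e1, e2] at this
    exact not_isCoprime_zero_zero this
  · rw [hu0d]
    exact (natDegree_C_mul_le _ _).trans (rat_degp hR)
  · rw [hw0d]
    exact (natDegree_C_mul_le _ _).trans (rat_degq hR)
  · rw [hu0, hw0, hc_C_mul', hc_C_mul', h1, h2]
    ring

lemma const_cj [Infinite K] {d : ℕ} (hd : 2 ≤ d) {p q : K[X]} (hR : Rat d p q)
    (κ : Subfield K) (h : ConjConst κ p q d) :
    ∃ (a b c e s : K) (u w : K[X]), s ≠ 0 ∧ Rat d u w ∧
      (∀ n, s * u.coeff n ∈ κ ∧ s * w.coeff n ∈ κ) ∧ CJ d a b c e p q u w := by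
  obtain ⟨a, b, c, e, hD, u0, w0, hne, hu0, hw0, heq⟩ := h
  set A := (C a * X + C b : K[X]) with hA
  set B := (C c * X + C e : K[X]) with hB
  set u' := u0.map (algebraMap κ K) with hu'
  set w' := w0.map (algebraMap κ K) with hw'
  set U := hc d u' A B with hU
  set W := hc d w' A B with hW
  set P := C a * p + C b * q with hP
  set Q := C c * p + C e * q with hQ
  have hu'd : u'.natDegree ≤ d := natDegree_map_le.trans hu0
  have hw'd : w'.natDegree ≤ d := natDegree_map_le.trans hw0
  have hUd : U.natDegree ≤ d := hc_lin_degree _ _ _ _ _ _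
  have hWd : W.natDegree ≤ d := hc_lin_degree _ _ _ _ _ _
  have hPd : P.natDegree ≤ d := by
    refine (natDegree_add_le _ _).trans (max_le ?_ ?_)
    · exact (natDegree_C_mul_le _ _).trans (rat_degp hR)
    · exact (natDegree_C_mul_le _ _).trans (rat_degq hR)
  have hQd : Q.natDegree ≤ d := by
    refine (natDegree_add_le _ _).trans (max_le ?_ ?_)
    · exact (natDegree_C_mul_le _ _).trans (rat_degp hR)
    · exact (natDegree_C_mul_le _ _).trans (rat_degq hR)
  -- `P` and `Q` are coprime
  have hco : IsCoprime P Q := by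
    obtain ⟨x, y, hxy⟩ := hR.1
    refine ⟨C (a * e - b * c)⁻¹ * (C e * x - C c * y), C (a * e - b * c)⁻¹ * (C a * y - C b * x),
      ?_⟩
    have h1 : C (a * e - b * c)⁻¹ * C (a * e - b * c) = (1 : K[X]) := by
      rw [← C_mul, inv_mul_cancel₀ hD, C_1]
    rw [hP, hQ]
    rw [C_sub, C_mul, C_mul] at h1
    linear_combination (C (a * e - b * c)⁻¹ * (C a * C e - C b * C c)) * hxy + h1
  have hcoef : P.coeff d ≠ 0 ∨ Q.coeff d ≠ 0 := by
    by_contra hcon
    push Not at hcon
    obtain ⟨h1, h2⟩ := hcon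
    rw [hP, coeff_add, coeff_C_mul, coeff_C_mul] at h1
    rw [hQ, coeff_add, coeff_C_mul, coeff_C_mul] at h2
    have h3 : (a * e - b * c) * p.coeff d = 0 := by linear_combination e * h1 - b * h2
    have h4 : (a * e - b * c) * q.coeff d = 0 := by linear_combination a * h2 - c * h1
    have h5 := (mul_eq_zero.mp h3).resolve_left hD
    have h6 := (mul_eq_zero.mp h4).resolve_left hD
    rcases rat_coeff_ne hR with h7 | h7
    · exact h7 h5
    · exact h7 h6
  have hP0 : P ≠ 0 := by
    intro h0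
    rw [h0, isCoprime_zero_left] at hco
    have h1 := natDegree_eq_zero_of_isUnit hco
    rcases hcoef with h2 | h2
    · rw [h0, coeff_zero] at h2
      exact h2 rfl
    · apply h2
      exact coeff_eq_zero_of_natDegree_lt (by omega)
  have hdvd : P ∣ U := by
    apply hco.dvd_of_dvd_mul_left
    rw [← heq]
    exact dvd_mul_right _ _
  obtain ⟨g, hg⟩ := hdvd
  have hg2 : W = Q * g := by
    apply mul_left_cancel₀ hP0
    rw [heq, hg]
    ring
  -- substitution does not kill a form
  have hkill : ∀ f : K[X], f.natDegree ≤ d → hc d f A B = 0 → f = 0 := by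
    intro f hf h0
    apply hev_ext d f 0 hf (by simp)
    intro z
    have h1 := hev_lm d f a b c e (lm (e / (a * e - b * c)) (-b / (a * e - b * c))
      (-c / (a * e - b * c)) (a / (a * e - b * c)) (z, 1))
    rw [← hA, ← hB, h0, lm_inv hD] at h1
    rw [← h1]
    unfold hev
    simp
  have hg0 : g ≠ 0 := by
    intro h0
    rw [h0, mul_zero] at hg hg2
    have h1 := hkill u' hu'd hg
    have h2 := hkill w' hw'd hg2
    rw [hu', Polynomial.map_eq_zero] at h1
    rw [hw', Polynomial.map_eq_zero] at h2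
    rcases hne with h3 | h3
    · exact h3 h1
    · exact h3 h2
  have hgd : g.natDegree = 0 := by
    rcases hcoef with h1 | h1
    · have h2 : d ≤ P.natDegree := le_natDegree_of_ne_zero h1
      have h3 : U.natDegree = P.natDegree + g.natDegree := by rw [hg, natDegree_mul hP0 hg0]
      omega
    · have h2 : d ≤ Q.natDegree := le_natDegree_of_ne_zero h1
      have hQ0 : Q ≠ 0 := by
        intro h0
        rw [h0, coeff_zero] at h1
        exact h1 rfl
      have h3 : W.natDegree = Q.natDegree + g.natDegree := by rw [hg2, natDegree_mul hQ0 hg0]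
      omega
  obtain ⟨t, ht⟩ : ∃ t, g = C t := ⟨_, eq_C_of_natDegree_eq_zero hgd⟩
  have ht0 : t ≠ 0 := by
    intro h0
    rw [h0, C_0] at ht
    exact hg0 ht
  have hti : C t⁻¹ * C t = (1 : K[X]) := by
    rw [← C_mul, inv_mul_cancel₀ ht0, C_1]
  have k1 : hc d (C t⁻¹ * u') A B = P := by
    rw [hc_C_mul', ← hU, hg, ht]
    linear_combination P * hti
  have k2 : hc d (C t⁻¹ * w') A B = Q := by
    rw [hc_C_mul', ← hW, hg2, ht]
    linear_combination Q * hti
  have hcj : ∀ Z, bK d (C t⁻¹ * u') (C t⁻¹ * w') (lm a b c e Z) = lm a b c e (bK d p q Z) :=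
    cj_of_poly k1 k2
  refine ⟨a, b, c, e, t, C t⁻¹ * u', C t⁻¹ * w', ht0, ?_, ?_, hD, hcj⟩
  · apply rat_of_ne ((natDegree_C_mul_le _ _).trans hu'd) ((natDegree_C_mul_le _ _).trans hw'd)
      (L := AlgebraicClosure K)
    intro Z hZ
    set j := algebraMap K (AlgebraicClosure K) with hj
    have hDj : j a * j e - j b * j c ≠ 0 := by
      rw [← map_mul, ← map_mul, ← map_sub]
      exact (_root_.map_ne_zero j).mpr hD
    have m1 : hc d ((C t⁻¹ * u').map j) (C (j a) * X + C (j b)) (C (j c) * X + C (j e)) =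
        C (j a) * p.map j + C (j b) * q.map j := by
      have := congrArg (Polynomial.map j) k1
      rw [hc_map', hA, hB, hP] at this
      simpa only [Polynomial.map_add, Polynomial.map_mul, map_C, map_X] using this
    have m2 : hc d ((C t⁻¹ * w').map j) (C (j a) * X + C (j b)) (C (j c) * X + C (j e)) =
        C (j c) * p.map j + C (j e) * q.map j := by
      have := congrArg (Polynomial.map j) k2
      rw [hc_map', hA, hB, hQ] at this
      simpa only [Polynomial.map_add, Polynomial.map_mul, map_C, map_X] using this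
    have m3 := cj_of_poly m1 m2 (lm (j e / (j a * j e - j b * j c)) (-j b / (j a * j e - j b * j c))
      (-j c / (j a * j e - j b * j c)) (j a / (j a * j e - j b * j c)) Z)
    rw [lm_inv hDj] at m3
    rw [m3]
    apply lm_ne hDj
    apply rat_bK_ne (rat_map hR _)
    exact lm_ne (det_inv hDj) hZ
  · intro n
    rw [coeff_C_mul, coeff_C_mul, ← mul_assoc, ← mul_assoc, mul_inv_cancel₀ ht0, one_mul, one_mul,
      hu', hw', coeff_map, coeff_map]
    exact ⟨(u0.coeff n).2, (w0.coeff n).2⟩

end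

theorem t_CNJ : S_CNJ.{u} := by
  intro K _ _ d hd p q hR
  refine ⟨fun a b c e h => cj_exists' h hR, ?_, fun κ h => const_cj hd hR κ h⟩
  intro a b c e u w hR' h
  have hp := rat_degp hR
  have hq := rat_degq hR
  have hu := rat_degp hR'
  have hw := rat_degq hR'
  have hd1 : 1 ≤ d := by omega
  refine ⟨cj_symm h, cj_Jv hd1 h.1 hp hq hu hw h.2, ?_, fun κ s hs hκ => cj_const hR hR' h κ s hs hκ⟩
  rw [lat_iff hd1 hp hq, lat_iff hd1 hu hw]
  exact ⟨hlat_conj hd1 hp hq hu hw h, hlat_conj hd1 hu hw hp hq (cj_symm h)⟩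

end Pool.Agent.Q208.OP
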