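import Pool.Agent.Q103.OP.Defs

/-!
# Project OP: a derivation which kills the invariant set kills the map
-/

set_option autoImplicit false

namespace Pool.Agent.Q208.OP

open Pool.Agent.W277.UH Polynomial
open Pool.Agent.Q103.OP

universe u

section

variable {K : Type u} [Field K]

/-- the coefficientwise derivation -/
noncomputable def dl (D : Derivation ℤ K K) : Derivation ℤ K[X] K[X] :=
  letI : Differential K := ⟨D⟩
  Differential.mapCoeffs

lemma dl_coeff (D : Derivation ℤ K K) (f : K[X]) (n : ℕ) : (dl D f).coeff n = D (f.coeff n) := by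
  let _ : Differential K := ⟨D⟩
  exact Differential.coeff_mapCoeffs f n

lemma dl_C (D : Derivation ℤ K K) (a : K) : dl D (C a) = C (D a) := by
  let _ : Differential K := ⟨D⟩
  exact Differential.mapCoeffs_C a

lemma dl_X (D : Derivation ℤ K K) : dl D (X : K[X]) = 0 := by
  let _ : Differential K := ⟨D⟩
  exact Differential.mapCoeffs_X

lemma dl_natDegree_le (D : Derivation ℤ K K) (f : K[X]) : (dl D f).natDegree ≤ f.natDegree := by
  rw [natDegree_le_iff_coeff_eq_zero]
  intro n hn
  rw [dl_coeff, coeff_eq_zero_of_natDegree_lt hn, map_zero]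

lemma dl_monic_degree (D : Derivation ℤ K K) (f : K[X]) (hf : f.Monic) (h : 1 ≤ f.natDegree) :
    (dl D f).natDegree < f.natDegree := by
  have h1 : (dl D f).natDegree ≤ f.natDegree - 1 := by
    rw [natDegree_le_iff_coeff_eq_zero]
    intro n hn
    rw [dl_coeff]
    rcases Nat.lt_or_ge f.natDegree n with h2 | h2
    · rw [coeff_eq_zero_of_natDegree_lt h2, map_zero]
    · have : n = f.natDegree := by omega
      rw [this, hf.coeff_natDegree]
      exact D.map_one_eq_zero
  omega

/-- the local computation -/
lemma der_local [CharZero K] (D : Derivation ℤ K K) (p q : K[X]) (hW : Wr p q ≠ 0)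
    (x : K) (hq : q.eval x ≠ 0) (hv : D (p.eval x / q.eval x) = 0)
    (hr : dl D p * q - p * dl D q ≠ 0) :
    rootMultiplicity x (Wr p q) ≤ rootMultiplicity x (dl D p * q - p * dl D q) ∧
    (D x = 0 → rootMultiplicity x (Wr p q) + 1 ≤
      rootMultiplicity x (dl D p * q - p * dl D q)) := by
  set v := p.eval x / q.eval x with hvd
  set N := p - C v * q with hN
  have hNx : N.eval x = 0 := by
    rw [hN, eval_sub, eval_mul, eval_C, hvd]
    field_simp
    ring
  have hWN : Wr p q = derivative N * q - N * derivative q := by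
    unfold Wr
    rw [hN]
    simp only [derivative_sub, derivative_mul, derivative_C, zero_mul, zero_add]
    ring
  have hN0 : N ≠ 0 := by
    intro h0
    apply hW
    rw [hWN, h0]
    simp
  have hrN : dl D p * q - p * dl D q = dl D N * q - N * dl D q := by
    rw [hN, map_sub, Derivation.leibniz, dl_C, hv, C_0]
    simp only [smul_eq_mul, mul_zero, add_zero]
    ring
  obtain ⟨M, hM, hMx⟩ := exists_eq_pow_rootMultiplicity_mul_and_not_dvd N hN0 x
  set e := rootMultiplicity x N with he
  have he1 : 1 ≤ e := by
    rw [he]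
    exact (rootMultiplicity_pos hN0).mpr hNx
  obtain ⟨e', he'⟩ : ∃ e', e = e' + 1 := ⟨e - 1, by omega⟩
  have hMx' : M.eval x ≠ 0 := by
    intro h
    exact hMx (dvd_iff_isRoot.mpr h)
  rw [he'] at hM
  -- multiplicity in the Wronskian
  have hW1 : Wr p q = (X - C x) ^ e' * (((e' + 1 : ℕ) : K[X]) * M * q + (X - C x) *
      (derivative M * q - M * derivative q)) := by
    rw [hWN, hM]
    simp only [derivative_mul, derivative_X_sub_C_pow, Nat.add_sub_cancel, map_natCast]
    push_cast
    ring
  have hmW : rootMultiplicity x (Wr p q) ≤ e' := by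
    by_contra hcon
    push Not at hcon
    have h1 : (X - C x) ^ (e' + 1) ∣ Wr p q :=
      (le_rootMultiplicity_iff hW).mp hcon
    rw [hW1, pow_succ] at h1
    have h2 := (mul_dvd_mul_iff_left (pow_ne_zero e' (X_sub_C_ne_zero x))).mp h1
    rw [dvd_iff_isRoot, IsRoot.def] at h2
    simp only [eval_add, eval_mul, eval_natCast, eval_sub, eval_X, eval_C, sub_self, zero_mul,
      add_zero] at h2
    have h3 : ((e' + 1 : ℕ) : K) ≠ 0 := by exact_mod_cast Nat.succ_ne_zero e'
    exact mul_ne_zero (mul_ne_zero h3 hMx') hq h2
  have hdp : dl D ((X - C x) ^ (e' + 1)) = -(C (((e' + 1 : ℕ) : K) * D x) * (X - C x) ^ e') := by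
    rw [Derivation.leibniz_pow, map_sub, dl_X, dl_C]
    simp only [smul_eq_mul, Nat.add_sub_cancel, zero_sub, nsmul_eq_mul, map_mul, map_natCast]
    ring
  have hr1 : dl D p * q - p * dl D q = (X - C x) ^ e' * (-(C (((e' + 1 : ℕ) : K) * D x)) * M * q +
      (X - C x) * (dl D M * q - M * dl D q)) := by
    rw [hrN, hM, Derivation.leibniz, hdp]
    simp only [smul_eq_mul]
    ring
  constructor
  · refine hmW.trans ((le_rootMultiplicity_iff hr).mpr ?_)
    rw [hr1]
    exact dvd_mul_right _ _
  · intro hx
    refine (Nat.succ_le_succ hmW).trans ((le_rootMultiplicity_iff hr).mpr ?_)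
    rw [hr1, hx]
    simp only [mul_zero, C_0, neg_zero, zero_mul, zero_add]
    rw [Nat.succ_eq_add_one, pow_succ]
    exact mul_dvd_mul_left _ (dvd_mul_right _ _)

end

theorem t_DER : S_DER.{u} := by
  classical
  intro K _ _ _ d p q P hP h3 D hD
  have hW0 : Wr p q ≠ 0 := by
    intro h
    have h1 := hP.degW
    rw [h, natDegree_zero] at h1
    have := hP.two_le
    omega
  have hr : dl D p * q - p * dl D q = 0 := by
    by_contra hr
    have hle : (Wr p q).roots + P.val ≤ (dl D p * q - p * dl D q).roots := by
      rw [Multiset.le_iff_count]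
      intro x
      rw [Multiset.count_add, count_roots, count_roots]
      by_cases hxP : x ∈ P
      · have hc : Multiset.count x P.val = 1 := Multiset.count_eq_one_of_mem P.nodup hxP
        rw [hc]
        obtain ⟨h1, h2⟩ := hP.inv x hxP
        exact (der_local D p q hW0 x h1 (hD _ h2) hr).2 (hD x hxP)
      · have hc : Multiset.count x P.val = 0 := Multiset.count_eq_zero_of_notMem hxP
        rw [hc, add_zero]
        by_cases hx : (Wr p q).eval x = 0
        · obtain ⟨h1, h2⟩ := hP.crit x hx
          exact (der_local D p q hW0 x h1 (hD _ h2) hr).1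
        · rw [rootMultiplicity_eq_zero hx]
          exact Nat.zero_le _
    have h1 := Multiset.card_le_card hle
    rw [Multiset.card_add] at h1
    have h2 : (Wr p q).roots.card = (Wr p q).natDegree :=
      (splits_iff_card_roots.mp (IsAlgClosed.splits (Wr p q)))
    have h4 : (dl D p * q - p * dl D q).roots.card ≤ 2 * d := by
      refine (card_roots' _).trans ?_
      refine (natDegree_sub_le _ _).trans (max_le ?_ ?_)
      · refine natDegree_mul_le.trans ?_
        have := dl_natDegree_le D p
        have := hP.degp
        have := hP.degq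
        omega
      · refine natDegree_mul_le.trans ?_
        have := dl_natDegree_le D q
        have := hP.degp
        have := hP.degq
        omega
    have h5 := hP.degW
    have h6 := hP.two_le
    have h7 : P.val.card = P.card := rfl
    omega
  have hq : dl D q = 0 := by
    have h1 : q ∣ p * dl D q := by
      rw [← sub_eq_zero.mp hr]
      exact dvd_mul_left _ _
    have h2 : q ∣ dl D q := hP.cop.symm.dvd_of_dvd_mul_left h1
    refine eq_zero_of_dvd_of_natDegree_lt h2 (dl_monic_degree D q hP.monic ?_)
    rw [hP.degq]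
    have := hP.two_le
    omega
  have hp : dl D p = 0 := by
    rw [hq, mul_zero, sub_zero] at hr
    exact (mul_eq_zero.mp hr).resolve_right hP.monic.ne_zero
  intro n
  rw [← dl_coeff, ← dl_coeff, hp, hq, coeff_zero]
  exact ⟨rfl, rfl⟩

end Pool.Agent.Q208.OP
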