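import Pool.Agent.Q208.OP.PRE

/-!
# Project OP: a critical point which returns close to itself
-/

set_option autoImplicit false

namespace Pool.Agent.Q208.OP

open Pool.Agent.W277.UH Polynomial
open Pool.Agent.Y706.CH (bK bK_smul)
open Pool.Agent.Q103.OP

universe u v

section ring

variable {L : Type u} [Field L] (w : AbsoluteValue L ℝ) (hw : IsNonarchimedean w)

/-- the ring of integers -/
def OO : Subring L where
  carrier := {x | w x ≤ 1}
  mul_mem' := by
    intro a b ha hb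
    simp only [Set.mem_ofPred_eq] at ha hb ⊢
    rw [map_mul]
    exact mul_le_one₀ ha (w.nonneg b) hb
  one_mem' := by simp
  add_mem' := by
    intro a b ha hb
    simp only [Set.mem_ofPred_eq] at ha hb ⊢
    exact (hw a b).trans (max_le ha hb)
  zero_mem' := by simp
  neg_mem' := by
    intro a ha
    simp only [Set.mem_ofPred_eq] at ha ⊢
    rwa [w.map_neg]

lemma mem_OO {x : L} : x ∈ OO w hw ↔ w x ≤ 1 := Iff.rfl

/-- the polynomials with integral coefficients -/
def IntP (f : L[X]) : Prop := ∀ i, w (f.coeff i) ≤ 1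

variable {w}

include hw in
lemma IntP.lift {f : L[X]} (hf : IntP w f) : ∃ g : (OO w hw)[X], g.map (OO w hw).subtype = f := by
  have h1 : f ∈ Polynomial.lifts (OO w hw).subtype := by
    rw [Polynomial.lifts_iff_coeff_lifts]
    intro n
    exact ⟨⟨f.coeff n, hf n⟩, rfl⟩
  exact (Polynomial.mem_lifts _).mp h1

lemma intP_of_lift (g : (OO w hw)[X]) : IntP w (g.map (OO w hw).subtype) := by
  intro i
  rw [coeff_map]
  exact (g.coeff i).2

include hw in
lemma IntP.mul {f g : L[X]} (hf : IntP w f) (hg : IntP w g) : IntP w (f * g) := by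
  obtain ⟨f', rfl⟩ := hf.lift hw
  obtain ⟨g', rfl⟩ := hg.lift hw
  rw [← Polynomial.map_mul]
  exact intP_of_lift hw _

include hw in
lemma IntP.add {f g : L[X]} (hf : IntP w f) (hg : IntP w g) : IntP w (f + g) := by
  obtain ⟨f', rfl⟩ := hf.lift hw
  obtain ⟨g', rfl⟩ := hg.lift hw
  rw [← Polynomial.map_add]
  exact intP_of_lift hw _

include hw in
lemma IntP.sub {f g : L[X]} (hf : IntP w f) (hg : IntP w g) : IntP w (f - g) := by
  obtain ⟨f', rfl⟩ := hf.lift hw
  obtain ⟨g', rfl⟩ := hg.lift hw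
  rw [← Polynomial.map_sub]
  exact intP_of_lift hw _

include hw in
lemma IntP.pow {f : L[X]} (hf : IntP w f) (n : ℕ) : IntP w (f ^ n) := by
  obtain ⟨f', rfl⟩ := hf.lift hw
  rw [← Polynomial.map_pow]
  exact intP_of_lift hw _

include hw in
lemma IntP.deriv {f : L[X]} (hf : IntP w f) : IntP w (derivative f) := by
  obtain ⟨f', rfl⟩ := hf.lift hw
  rw [derivative_map]
  exact intP_of_lift hw _

include hw in
lemma IntP.sum {ι : Type*} (s : Finset ι) (f : ι → L[X]) (h : ∀ i ∈ s, IntP w (f i)) :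
    IntP w (∑ i ∈ s, f i) := by
  classical
  induction s using Finset.induction_on with
  | empty =>
    intro i
    simp
  | insert a s ha ih =>
    rw [Finset.sum_insert ha]
    exact (h a (Finset.mem_insert_self a s)).add hw
      (ih fun i hi => h i (Finset.mem_insert_of_mem hi))

lemma intP_C {a : L} (ha : w a ≤ 1) : IntP w (C a) := by
  intro i
  rw [coeff_C]
  split_ifs
  · exact ha
  · simp

include hw in
lemma IntP.hc {n : ℕ} {A f g : L[X]} (hA : IntP w A) (hf : IntP w f) (hg : IntP w g) :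
    IntP w (hc n A f g) := by
  unfold Pool.Agent.W277.UH.hc hev
  apply IntP.sum hw
  intro i _
  rw [coeff_map]
  exact (((intP_C (hA i)).mul hw (hf.pow hw i))).mul hw (hg.pow hw _)

include hw in
lemma IntP.wr {f g : L[X]} (hf : IntP w f) (hg : IntP w g) : IntP w (Wr f g) :=
  ((hf.deriv hw).mul hw hg).sub hw (hf.mul hw (hg.deriv hw))

include hw in
lemma IntP.eval {f : L[X]} (hf : IntP w f) {x : L} (hx : w x ≤ 1) : w (f.eval x) ≤ 1 := by
  obtain ⟨f', rfl⟩ := hf.lift hw
  have : Polynomial.eval x (f'.map (OO w hw).subtype) =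
      (OO w hw).subtype (f'.eval ⟨x, hx⟩) := by
    rw [eval_map]
    exact eval₂_at_apply (OO w hw).subtype (⟨x, hx⟩ : OO w hw)
  rw [this]
  exact (f'.eval ⟨x, hx⟩).2

include hw in
lemma IntP.eval_sub {f : L[X]} (hf : IntP w f) {x y : L} (hx : w x ≤ 1) (hy : w y ≤ 1) :
    w (f.eval x - f.eval y) ≤ w (x - y) := by
  obtain ⟨f', rfl⟩ := hf.lift hw
  have key : ∀ z : L, ∀ hz : w z ≤ 1, Polynomial.eval z (f'.map (OO w hw).subtype) =
      (OO w hw).subtype (f'.eval ⟨z, hz⟩) := by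
    intro z hz
    rw [eval_map]
    exact eval₂_at_apply (OO w hw).subtype (⟨z, hz⟩ : OO w hw)
  rw [key x hx, key y hy, ← map_sub]
  obtain ⟨t, ht⟩ := sub_dvd_eval_sub (⟨x, hx⟩ : OO w hw) ⟨y, hy⟩ f'
  rw [ht, map_mul, map_mul]
  have h1 : w ((OO w hw).subtype t) ≤ 1 := t.2
  have h2 : (OO w hw).subtype ((⟨x, hx⟩ : OO w hw) - ⟨y, hy⟩) = x - y := rfl
  rw [h2]
  calc _ ≤ w (x - y) * 1 := mul_le_mul_of_nonneg_left h1 (w.nonneg _)
    _ = _ := mul_one _

include hw in
/-- forms with integral coefficients -/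
lemma IntP.hev {n : ℕ} {f : L[X]} (hf : IntP w f) {Z : L × L} (h1 : w Z.1 ≤ 1)
    (h2 : w Z.2 ≤ 1) : w (hev n f Z) ≤ 1 := by
  have : Pool.Agent.W277.UH.hev n f Z ∈ OO w hw := by
    unfold Pool.Agent.W277.UH.hev
    apply Subring.sum_mem
    intro i _
    exact Subring.mul_mem _ (Subring.mul_mem _ (hf i) (Subring.pow_mem _ h1 _))
      (Subring.pow_mem _ h2 _)
  exact this

include hw in
/-- an element of smaller absolute value does not matter -/
lemma w_eq_of_lt {x y : L} (h : w y < w x) : w (x + y) = w x := by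
  apply le_antisymm
  · exact (hw x y).trans (max_le le_rfl h.le)
  · by_contra hcon
    push Not at hcon
    have h1 := hw (x + y) (-y)
    rw [add_neg_cancel_right, w.map_neg] at h1
    have h2 : max (w (x + y)) (w y) < w x := max_lt hcon h
    linarith

/-- scaling of a vector -/
lemma scale_vec (w : AbsoluteValue L ℝ) {Z : L × L} (hZ : Z ≠ 0) :
    ∃ (t : L) (Z₀ : L × L), t ≠ 0 ∧ Z = t • Z₀ ∧ max (w Z₀.1) (w Z₀.2) = 1 := by
  rcases le_total (w Z.1) (w Z.2) with h | h
  · have h2 : Z.2 ≠ 0 := by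
      intro h0
      rw [h0, map_zero] at h
      have h1 : Z.1 = 0 := by
        have := le_antisymm h (w.nonneg _)
        exact w.eq_zero.mp this
      exact hZ (Prod.ext h1 h0)
    refine ⟨Z.2, (Z.1 / Z.2, 1), h2, ?_, ?_⟩
    · ext
      · simp only [Prod.smul_fst, smul_eq_mul]
        field_simp
      · simp
    · simp only [map_one, map_div₀]
      apply max_eq_right
      exact div_le_one_of_le₀ h (w.nonneg _)
  · have h2 : Z.1 ≠ 0 := by
      intro h0
      rw [h0, map_zero] at h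
      have h1 : Z.2 = 0 := by
        have := le_antisymm h (w.nonneg _)
        exact w.eq_zero.mp this
      exact hZ (Prod.ext h0 h1)
    refine ⟨Z.1, (1, Z.2 / Z.1), h2, ?_, ?_⟩
    · ext
      · simp
      · simp only [Prod.smul_snd, smul_eq_mul]
        field_simp
    · simp only [map_one, map_div₀]
      apply max_eq_left
      exact div_le_one_of_le₀ h (w.nonneg _)

end ring

section

variable {L : Type u} [Field L] [CharZero L] [IsAlgClosed L] (w : AbsoluteValue L ℝ)
  (hw : IsNonarchimedean w)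

lemma good_rat (d : ℕ) (p q : L[X]) (hp : p.natDegree ≤ d) (hq : q.natDegree ≤ d)
    (hg : ∀ Z : L × L, max (w Z.1) (w Z.2) = 1 →
      max (w (bK d p q Z).1) (w (bK d p q Z).2) = 1) : Rat d p q := by
  apply rat_of_ne hp hq (L := L)
  intro Z hZ
  rw [Algebra.algebraMap_self, Polynomial.map_id, Polynomial.map_id]
  obtain ⟨t, Z₀, ht, rfl, h1⟩ := scale_vec w hZ
  rw [bK_smul]
  have h2 := hg Z₀ h1
  intro h0
  have h3 : bK d p q Z₀ = 0 := (smul_eq_zero.mp h0).resolve_left (pow_ne_zero _ ht)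
  rw [h3] at h2
  simp at h2

lemma good_iter (d : ℕ) (p q : L[X])
    (hg : ∀ Z : L × L, max (w Z.1) (w Z.2) = 1 →
      max (w (bK d p q Z).1) (w (bK d p q Z).2) = 1) (k : ℕ) (Z : L × L)
    (hZ : max (w Z.1) (w Z.2) = 1) :
    max (w ((bK d p q)^[k] Z).1) (w ((bK d p q)^[k] Z).2) = 1 := by
  induction k with
  | zero => exact hZ
  | succ k ih =>
    rw [Function.iterate_succ_apply']
    exact hg _ ih

include hw in
/-- the iterates have integral coefficients -/
lemma iter_int (d : ℕ) (p q : L[X]) (hpi : IntP w p) (hqi : IntP w q) (k : ℕ) :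
    ∃ A B : L[X], IntP w A ∧ IntP w B ∧
      ∀ x : L, (bK d p q)^[k] (x, 1) = (A.eval x, B.eval x) := by
  induction k with
  | zero =>
    refine ⟨X, 1, ?_, ?_, ?_⟩
    · intro i
      rw [coeff_X]
      split_ifs <;> simp
    · have := intP_C (w := w) (a := 1) (by simp)
      rwa [C_1] at this
    · intro x
      simp
  | succ k ih =>
    obtain ⟨A, B, hA, hB, h⟩ := ih
    refine ⟨hc d p A B, hc d q A B, hpi.hc hw hA hB, hqi.hc hw hA hB, fun x => ?_⟩
    rw [Function.iterate_succ_apply', h, hc_eval, hc_eval]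
    rfl

include hw in
/-- the case of a critical point in the finite part -/
lemma gp_aux (hIT : S_ITER.{u}) (d : ℕ) (hd : 2 ≤ d) (p q : L[X]) (hp : p.natDegree ≤ d)
    (hq : q.natDegree ≤ d) (hi : ∀ i, w (p.coeff i) ≤ 1 ∧ w (q.coeff i) ≤ 1)
    (hg : ∀ Z : L × L, max (w Z.1) (w Z.2) = 1 →
      max (w (bK d p q Z).1) (w (bK d p q Z).2) = 1)
    (γ : L) (hγ : w γ ≤ 1) (hJ : Jv d p q (γ, 1) = 0) (N : ℕ) (hN : 1 ≤ N)
    (h0 : wd ((bK d p q)^[N] (γ, 1)) ((γ, 1) : L × L) ≠ 0)
    (h1 : w (wd ((bK d p q)^[N] (γ, 1)) ((γ, 1) : L × L)) < 1) :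
    ∃ y μ : L, w y ≤ 1 ∧ w μ = 1 ∧ (bK d p q)^[N] (y, 1) = μ • ((y, 1) : L × L) ∧
      w (y - γ) < 1 ∧ w (mlt d p q N (y, 1) μ) < 1 := by
  have hR := good_rat w d p q hp hq hg
  have hpi : IntP w p := fun i => (hi i).1
  have hqi : IntP w q := fun i => (hi i).2
  obtain ⟨P, Q, hRP, hit, hJv⟩ := hIT L d hd p q hR N
  have hPd := rat_degp hRP
  have hQd := rat_degq hRP
  obtain ⟨A, B, hA, hB, hAB⟩ := iter_int w hw d p q hpi hqi N
  have hev1 : ∀ x : L, (bK d p q)^[N] (x, 1) = (P.eval x, Q.eval x) := by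
    intro x
    rw [← hit]
    unfold bK
    rw [hev_one _ _ hPd, hev_one _ _ hQd]
  have hPA : P = A := by
    apply Polynomial.funext
    intro x
    have := hAB x
    rw [hev1 x] at this
    exact congrArg Prod.fst this
  have hQB : Q = B := by
    apply Polynomial.funext
    intro x
    have := hAB x
    rw [hev1 x] at this
    exact congrArg Prod.snd this
  have hPi : IntP w P := hPA ▸ hA
  have hQi : IntP w Q := hQB ▸ hB
  clear hAB hA hB hPA hQB
  have hmax : ∀ x : L, w x ≤ 1 → max (w (P.eval x)) (w (Q.eval x)) = 1 := by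
    intro x hx
    have := good_iter w d p q hg N (x, 1) (by simpa using hx)
    rwa [hev1 x] at this
  -- the polynomial whose roots are the fixed points
  set H := P - X * Q with hH
  have hHe : ∀ x : L, wd ((bK d p q)^[N] (x, 1)) ((x, 1) : L × L) = H.eval x := by
    intro x
    rw [hev1 x, hH, Polynomial.eval_sub, eval_mul, eval_X]
    unfold wd
    ring
  rw [hHe] at h0 h1
  have hX : IntP w (X : L[X]) := by
    intro i
    rw [coeff_X]
    split_ifs <;> simp
  have hHi : IntP w H := hPi.sub hw (hX.mul hw hQi)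
  have hH0 : 0 < w (H.eval γ) := w.pos h0
  have hrel : ∀ x : L, P.eval x = H.eval x + x * Q.eval x := by
    intro x
    rw [hH, Polynomial.eval_sub, eval_mul, eval_X]
    ring
  -- the denominator is a unit at `γ`
  have hQγ : w (Q.eval γ) = 1 := by
    have h2 : w (Q.eval γ) ≤ 1 := hQi.eval hw hγ
    by_contra hne
    have h3 : w (Q.eval γ) < 1 := lt_of_le_of_ne h2 hne
    have h4 : w (P.eval γ) < 1 := by
      rw [hrel γ]
      refine lt_of_le_of_lt (hw _ _) (max_lt h1 ?_)
      rw [map_mul]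
      calc w γ * w (Q.eval γ) ≤ 1 * w (Q.eval γ) := mul_le_mul_of_nonneg_right hγ (w.nonneg _)
        _ < 1 := by linarith
    have h5 := hmax γ hγ
    have h6 := max_lt h4 h3
    linarith
  -- the Wronskian vanishes at `γ`
  have hWγ : (Wr P Q).eval γ = 0 := by
    have h2 := hJv (γ, 1)
    have hpow : 1 ≤ d ^ N := Nat.one_le_pow _ _ (by omega)
    have h3 : Jv (d ^ N) P Q (γ, 1) = (Wr P Q).eval γ := by
      unfold Jv
      rw [hev_one _ _ (Wr_degree hpow hPd hQd)]
    rw [h3] at h2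
    rw [h2]
    exact Finset.prod_eq_zero (Finset.mem_range.mpr (by omega : 0 < N)) hJ
  -- the derivative of `H` is a unit at `γ`
  have hder : Q.eval γ * (derivative H).eval γ =
      (derivative Q).eval γ * H.eval γ - (Q.eval γ) ^ 2 := by
    have h2 : (Wr P Q).eval γ = (derivative P).eval γ * Q.eval γ -
        P.eval γ * (derivative Q).eval γ := by
      unfold Wr
      rw [Polynomial.eval_sub, eval_mul, eval_mul]
    rw [hWγ] at h2
    have h3 : (derivative H).eval γ = (derivative P).eval γ - Q.eval γ -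
        γ * (derivative Q).eval γ := by
      rw [hH, derivative_sub, derivative_mul, derivative_X, one_mul, Polynomial.eval_sub,
        eval_add, eval_mul, eval_X]
      ring
    rw [h3]
    linear_combination (-1 : L) * h2 + (derivative Q).eval γ * hrel γ
  have hderw : w ((derivative H).eval γ) = 1 := by
    have h2 : w (Q.eval γ * (derivative H).eval γ) = 1 := by
      rw [hder, sub_eq_add_neg, add_comm]
      have h3 : w (-(Q.eval γ) ^ 2) = 1 := by
        rw [w.map_neg, map_pow, hQγ, one_pow]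
      rw [w_eq_of_lt hw, h3]
      rw [h3, map_mul]
      have h4 : w ((derivative Q).eval γ) ≤ 1 := (hQi.deriv hw).eval hw hγ
      calc w ((derivative Q).eval γ) * w (H.eval γ) ≤ 1 * w (H.eval γ) :=
            mul_le_mul_of_nonneg_right h4 (w.nonneg _)
        _ < 1 := by linarith
    rwa [map_mul, hQγ, one_mul] at h2
  -- a fixed point close to `γ`
  obtain ⟨y, hyr, hyγ⟩ : ∃ y ∈ H.roots, w (γ - y) < 1 := by
    by_contra hcon
    push Not at hcon
    have h2 := (IsAlgClosed.splits H).eval_derivative_div_eval_of_ne_zero h0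
    have h3 : (H.roots.map fun z => 1 / (γ - z)).sum ∈ OO w hw := by
      apply Subring.multiset_sum_mem
      intro a ha
      obtain ⟨z, hz, rfl⟩ := Multiset.mem_map.mp ha
      rw [mem_OO, map_div₀, map_one]
      exact div_le_one_of_le₀ (hcon z hz) (w.nonneg _)
    rw [← h2, mem_OO, map_div₀, hderw] at h3
    rw [div_le_iff₀ hH0] at h3
    linarith
  have hH00 : H ≠ 0 := by
    intro h2
    rw [h2, eval_zero] at h0
    exact h0 rfl
  have hyH : H.eval y = 0 := (mem_roots hH00).mp hyr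
  have hyγ' : w (y - γ) < 1 := by
    rw [← w.map_neg, neg_sub]
    exact hyγ
  have hy : w y ≤ 1 := by
    have h2 := hw (y - γ) γ
    rw [sub_add_cancel] at h2
    exact h2.trans (max_le hyγ'.le hγ)
  have hPy : P.eval y = y * Q.eval y := by
    rw [hrel y, hyH, zero_add]
  have hQy : w (Q.eval y) = 1 := by
    have h2 := hmax y hy
    have h3 : w (P.eval y) ≤ w (Q.eval y) := by
      rw [hPy, map_mul]
      calc w y * w (Q.eval y) ≤ 1 * w (Q.eval y) := mul_le_mul_of_nonneg_right hy (w.nonneg _)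
        _ = _ := one_mul _
    rwa [max_eq_right h3] at h2
  refine ⟨y, Q.eval y, hy, hQy, ?_, hyγ', ?_⟩
  · rw [hev1 y, hPy]
    ext
    · simp only [Prod.smul_fst, smul_eq_mul]
      ring
    · simp
  · unfold mlt
    rw [map_div₀, map_pow, hQy, one_pow, div_one, map_prod]
    have hWd := Wr_degree (by omega : 1 ≤ d) hp hq
    have hj0 : w (Jv d p q (y, 1)) < 1 := by
      have h2 : ∀ x : L, Jv d p q (x, 1) = (Wr p q).eval x := by
        intro x
        unfold Jv
        rw [hev_one _ _ hWd]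
      have h3 := (hpi.wr hw hqi).eval_sub hw hy hγ
      rw [← h2, ← h2, hJ, sub_zero] at h3
      exact lt_of_le_of_lt h3 hyγ'
    obtain ⟨n, rfl⟩ : ∃ n, N = n + 1 := ⟨N - 1, by omega⟩
    rw [Finset.prod_range_succ']
    simp only [Function.iterate_zero, id_eq]
    have h4 : ∏ k ∈ Finset.range n, w (Jv d p q ((bK d p q)^[k + 1] (y, 1))) ≤ 1 := by
      apply Finset.prod_le_one
      · intro i _
        exact w.nonneg _
      · intro i _
        have h5 := good_iter w d p q hg (i + 1) (y, 1) (by simpa using hy)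
        exact (hpi.wr hw hqi).hev hw (h5 ▸ le_max_left _ _) (h5 ▸ le_max_right _ _)
    calc _ ≤ 1 * w (Jv d p q (y, 1)) := mul_le_mul_of_nonneg_right h4 (w.nonneg _)
      _ < 1 := by linarith

end

section swap

variable {L : Type u} [Field L]

lemma hev_reflect (d : ℕ) (f : L[X]) (Z : L × L) :
    hev d (reflect d f) Z = hev d f (Z.2, Z.1) := by
  unfold hev
  rw [← Finset.sum_range_reflect]
  refine Finset.sum_congr rfl fun i hi => ?_
  rw [Finset.mem_range] at hi
  have h1 : d + 1 - 1 - i = d - i := by omega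
  rw [h1, coeff_reflect, revAt_le (by omega : d - i ≤ d)]
  have h2 : d - (d - i) = i := by omega
  rw [h2]
  ring

lemma reflect_degree (d : ℕ) (f : L[X]) (hf : f.natDegree ≤ d) :
    (reflect d f).natDegree ≤ d := by
  rw [natDegree_le_iff_coeff_eq_zero]
  intro n hn
  rw [coeff_reflect, revAt_eq_self_of_lt hn]
  exact coeff_eq_zero_of_natDegree_lt (by omega)

lemma bK_swap (d : ℕ) (p q : L[X]) (Z : L × L) :
    bK d (reflect d q) (reflect d p) (Z.2, Z.1) = ((bK d p q Z).2, (bK d p q Z).1) := by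
  unfold bK
  rw [hev_reflect, hev_reflect]

lemma bK_swap_iter (d : ℕ) (p q : L[X]) (k : ℕ) (Z : L × L) :
    (bK d (reflect d q) (reflect d p))^[k] (Z.2, Z.1) =
      (((bK d p q)^[k] Z).2, ((bK d p q)^[k] Z).1) := by
  induction k with
  | zero => rfl
  | succ k ih => rw [Function.iterate_succ_apply', ih, Function.iterate_succ_apply', bK_swap]

lemma bK_swap_iter' (d : ℕ) (p q : L[X]) (k : ℕ) (Y : L × L) :
    (bK d p q)^[k] (Y.2, Y.1) = (((bK d (reflect d q) (reflect d p))^[k] Y).2,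
      ((bK d (reflect d q) (reflect d p))^[k] Y).1) := by
  have h : (bK d (reflect d q) (reflect d p))^[k] Y = (((bK d p q)^[k] (Y.2, Y.1)).2,
    ((bK d p q)^[k] (Y.2, Y.1)).1) := bK_swap_iter d p q k (Y.2, Y.1)
  rw [h]

lemma Jv_swap [CharZero L] (d : ℕ) (hd : 1 ≤ d) (p q : L[X]) (hp : p.natDegree ≤ d)
    (hq : q.natDegree ≤ d) (Z : L × L) :
    Jv d (reflect d q) (reflect d p) (Z.2, Z.1) = Jv d p q Z := by
  have hlm : ∀ Z : L × L, lm 0 1 1 0 Z = (Z.2, Z.1) := by
    intro Z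
    unfold lm
    simp
  have h := cj_Jv hd (a := (0 : L)) (b := 1) (c := 1) (e := 0) (by simp) hp hq
    (reflect_degree d q hq) (reflect_degree d p hp) (by
      intro Z
      rw [hlm, hlm, bK_swap]) Z
  rw [hlm] at h
  exact h

lemma Jv_swap' [CharZero L] (d : ℕ) (hd : 1 ≤ d) (p q : L[X]) (hp : p.natDegree ≤ d)
    (hq : q.natDegree ≤ d) (Z : L × L) :
    Jv d p q (Z.2, Z.1) = Jv d (reflect d q) (reflect d p) Z :=
  (Jv_swap d hd p q hp hq (Z.2, Z.1)).symm

lemma mlt_swap [CharZero L] (d : ℕ) (hd : 1 ≤ d) (p q : L[X]) (hp : p.natDegree ≤ d)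
    (hq : q.natDegree ≤ d) (N : ℕ) (Y : L × L) (μ : L) :
    mlt d p q N (Y.2, Y.1) μ = mlt d (reflect d q) (reflect d p) N Y μ := by
  have h : ∀ j, Jv d p q ((bK d p q)^[j] (Y.2, Y.1)) =
      Jv d (reflect d q) (reflect d p) ((bK d (reflect d q) (reflect d p))^[j] Y) := by
    intro j
    rw [bK_swap_iter', Jv_swap' d hd p q hp hq]
  unfold mlt
  simp_rw [h]

lemma wd_swap (X Y : L × L) : wd (X.2, X.1) ((Y.2, Y.1) : L × L) = -wd X Y := by
  unfold wd
  ring

end swap

/-- the case of a critical point in the finite part -/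
lemma gp_fin (hIT : S_ITER.{u}) {L : Type u} [Field L] [CharZero L] [IsAlgClosed L]
    (w : AbsoluteValue L ℝ) (hw : IsNonarchimedean w) (d : ℕ) (hd : 2 ≤ d) (N : ℕ) (hN : 1 ≤ N)
    (p q : L[X]) (hp : p.natDegree ≤ d) (hq : q.natDegree ≤ d)
    (hi : ∀ i, w (p.coeff i) ≤ 1 ∧ w (q.coeff i) ≤ 1)
    (hg : ∀ Z : L × L, max (w Z.1) (w Z.2) = 1 →
      max (w (bK d p q Z).1) (w (bK d p q Z).2) = 1)
    (c : L × L) (hc1 : w c.1 ≤ 1) (hc2 : w c.2 = 1) (hJ : Jv d p q c = 0)
    (h0 : wd ((bK d p q)^[N] c) c ≠ 0) (h1 : w (wd ((bK d p q)^[N] c) c) < 1) :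
    ∃ (Y : L × L) (μ : L), max (w Y.1) (w Y.2) = 1 ∧ w μ = 1 ∧
        (bK d p q)^[N] Y = μ • Y ∧ w (wd Y c) < 1 ∧ w (mlt d p q N Y μ) < 1 := by
  have hc20 : c.2 ≠ 0 := by
    intro h
    rw [h, map_zero] at hc2
    exact zero_ne_one hc2
  have hcc : c = c.2 • ((c.1 / c.2, 1) : L × L) := by
    ext
    · simp only [Prod.smul_fst, smul_eq_mul]
      field_simp
    · simp
  set γ := c.1 / c.2 with hγd
  have hγ : w γ ≤ 1 := by
    rw [hγd, map_div₀, hc2, div_one]
    exact hc1
  have hJ' : Jv d p q (γ, 1) = 0 := by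
    rw [hcc] at hJ
    unfold Jv at hJ ⊢
    rw [hev_smul] at hJ
    exact (mul_eq_zero.mp hJ).resolve_left (pow_ne_zero _ hc20)
  rw [hcc, iter_smul, wd_smul_left, wd_smul_right] at h0 h1
  rw [map_mul, map_mul, map_pow, hc2, one_pow, one_mul, one_mul] at h1
  obtain ⟨y, μ, hy, hμ, hfix, hyγ, hmlt⟩ := gp_aux w hw hIT d hd p q hp hq hi hg γ hγ hJ' N hN
    (fun h => h0 (by rw [h]; ring)) h1
  refine ⟨(y, 1), μ, by simpa using hy, hμ, hfix, ?_, hmlt⟩
  have : wd ((y, 1) : L × L) c = c.2 * (y - γ) := by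
    rw [hγd]
    unfold wd
    field_simp
  rw [this, map_mul, hc2, one_mul]
  exact hyγ

/-- the case of a critical point close to infinity -/
lemma gp_inf (hIT : S_ITER.{u}) {L : Type u} [Field L] [CharZero L] [IsAlgClosed L]
    (w : AbsoluteValue L ℝ) (hw : IsNonarchimedean w) (d : ℕ) (hd : 2 ≤ d) (N : ℕ) (hN : 1 ≤ N)
    (p q : L[X]) (hp : p.natDegree ≤ d) (hq : q.natDegree ≤ d)
    (hi : ∀ i, w (p.coeff i) ≤ 1 ∧ w (q.coeff i) ≤ 1)
    (hg : ∀ Z : L × L, max (w Z.1) (w Z.2) = 1 →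
      max (w (bK d p q Z).1) (w (bK d p q Z).2) = 1)
    (c : L × L) (hc1 : w c.1 = 1) (hc2 : w c.2 ≤ 1) (hJ : Jv d p q c = 0)
    (h0 : wd ((bK d p q)^[N] c) c ≠ 0) (h1 : w (wd ((bK d p q)^[N] c) c) < 1) :
    ∃ (Y : L × L) (μ : L), max (w Y.1) (w Y.2) = 1 ∧ w μ = 1 ∧
        (bK d p q)^[N] Y = μ • Y ∧ w (wd Y c) < 1 ∧ w (mlt d p q N Y μ) < 1 := by
  have hd1 : 1 ≤ d := by omega
  have hrefl : ∀ f : L[X], (∀ i, w (f.coeff i) ≤ 1) → ∀ i, w ((reflect d f).coeff i) ≤ 1 := by
    intro f hf i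
    rw [coeff_reflect]
    exact hf _
  have hwd : wd ((bK d (reflect d q) (reflect d p))^[N] (c.2, c.1)) ((c.2, c.1) : L × L) =
      -wd ((bK d p q)^[N] c) c := by
    rw [bK_swap_iter, wd_swap]
  have hg' : ∀ Z : L × L, max (w Z.1) (w Z.2) = 1 →
      max (w (bK d (reflect d q) (reflect d p) Z).1)
        (w (bK d (reflect d q) (reflect d p) Z).2) = 1 := by
    intro Z hZ
    have h3 : bK d (reflect d q) (reflect d p) Z = ((bK d p q (Z.2, Z.1)).2,
      (bK d p q (Z.2, Z.1)).1) := bK_swap d p q (Z.2, Z.1)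
    rw [h3]
    simp only
    rw [max_comm]
    apply hg
    rw [max_comm]
    exact hZ
  have hJ' : Jv d (reflect d q) (reflect d p) (c.2, c.1) = 0 := by
    rw [Jv_swap d hd1 p q hp hq]
    exact hJ
  have h0' : wd ((bK d (reflect d q) (reflect d p))^[N] (c.2, c.1)) ((c.2, c.1) : L × L) ≠ 0 := by
    rw [hwd]
    exact neg_ne_zero.mpr h0
  have h1' : w (wd ((bK d (reflect d q) (reflect d p))^[N] (c.2, c.1))
      ((c.2, c.1) : L × L)) < 1 := by
    rw [hwd, w.map_neg]
    exact h1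
  obtain ⟨Y, μ, hY, hμ, hfix, hYc, hmlt⟩ := gp_fin hIT w hw d hd N hN (reflect d q) (reflect d p)
    (reflect_degree d q hq) (reflect_degree d p hp)
    (fun i => ⟨hrefl q (fun i => (hi i).2) i, hrefl p (fun i => (hi i).1) i⟩) hg'
    (c.2, c.1) hc2 hc1 hJ' h0' h1'
  refine ⟨(Y.2, Y.1), μ, ?_, hμ, ?_, ?_, ?_⟩
  · rw [max_comm]
    exact hY
  · rw [bK_swap_iter', hfix]
    rfl
  · have h2 := wd_swap Y (c.2, c.1)
    simp only [Prod.mk.eta] at h2
    rw [h2, w.map_neg]
    exact hYc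
  · rw [mlt_swap d hd1 p q hp hq]
    exact hmlt

theorem t_GP (hIT : S_ITER.{u}) : S_GP.{u} := by
  intro L _ _ _ w hw d hd p q hp hq hi hg c hc hJ N hN h0 h1
  rcases max_choice (w c.1) (w c.2) with h2 | h2
  · rw [hc] at h2
    exact gp_inf hIT w hw d hd N hN p q hp hq hi hg c h2.symm (hc ▸ le_max_right _ _) hJ h0 h1
  · rw [hc] at h2
    exact gp_fin hIT w hw d hd N hN p q hp hq hi hg c (hc ▸ le_max_left _ _) h2.symm hJ h0 h1

end Pool.Agent.Q208.OP
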