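import Pool.Agent.Q208.OP.CNJ

/-!
# Project OP: preimages
-/

set_option autoImplicit false

namespace Pool.Agent.Q208.OP

open Pool.Agent.W277.UH Polynomial
open Pool.Agent.Y706.CH (bK bK_smul)
open Pool.Agent.Q103.OP

universe u v

section

variable {K : Type u} [Field K]

lemma iter_smul (d : ℕ) (p q : K[X]) (k : ℕ) (t : K) (Z : K × K) :
    (bK d p q)^[k] (t • Z) = t ^ (d ^ k) • (bK d p q)^[k] Z := by
  induction k with
  | zero => simp
  | succ k ih =>
    rw [Function.iterate_succ_apply', ih, bK_smul, ← pow_mul, Function.iterate_succ_apply',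
      pow_succ]

lemma iter_ne {d : ℕ} {p q : K[X]} (hR : Rat d p q) (k : ℕ) {Z : K × K} (hZ : Z ≠ 0) :
    (bK d p q)^[k] Z ≠ 0 := by
  induction k with
  | zero => exact hZ
  | succ k ih =>
    rw [Function.iterate_succ_apply']
    exact rat_bK_ne hR ih

/-- vectors which represent the same point -/
lemma prop_of_wd {X Y : K × K} (hX : X ≠ 0) (hY : Y ≠ 0) (h : wd X Y = 0) :
    ∃ t : K, t ≠ 0 ∧ X = t • Y := by
  obtain ⟨t, ht⟩ := (wd_zero_iff hY).mp h
  refine ⟨t, ?_, ht⟩
  rintro rfl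
  rw [zero_smul] at ht
  exact hX ht

lemma iter_prop {d : ℕ} {p q : K[X]} (k : ℕ) {X Y : K × K} (hX : X ≠ 0) (hY : Y ≠ 0)
    (h : wd X Y = 0) : ∃ t : K, t ≠ 0 ∧ (bK d p q)^[k] X = t • (bK d p q)^[k] Y := by
  obtain ⟨t, ht0, rfl⟩ := prop_of_wd hX hY h
  exact ⟨t ^ (d ^ k), pow_ne_zero _ ht0, iter_smul d p q k t Y⟩

lemma wd_trans {X Y Z : K × K} (hY : Y ≠ 0) (h1 : wd X Y = 0) (h2 : wd Y Z = 0) :
    wd X Z = 0 := by
  obtain ⟨t, rfl⟩ := (wd_zero_iff hY).mp h1
  rw [wd_smul_left, h2, mul_zero]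

lemma wd_symm0 {X Y : K × K} (h : wd X Y = 0) : wd Y X = 0 := by
  rw [wd_comm, h, neg_zero]

lemma lift_pre {d : ℕ} {p q : K[X]} (hR : Rat d p q) (k : ℕ) {z y c : K × K} (hz : z ≠ 0)
    (hy : y ≠ 0) (h1 : wd (bK d p q z) y = 0) (h2 : wd ((bK d p q)^[k] y) c = 0) :
    wd ((bK d p q)^[k + 1] z) c = 0 := by
  rw [Function.iterate_succ_apply]
  obtain ⟨t, _, ht⟩ := iter_prop (d := d) (p := p) (q := q) k (rat_bK_ne hR hz) hy h1
  rw [ht, wd_smul_left, h2, mul_zero]

/-- the form which vanishes at the preimages of `y` -/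
lemma pre_form (d : ℕ) (p q : K[X]) (y Z : K × K) :
    hev d (C y.2 * p - C y.1 * q) Z = wd (bK d p q Z) y := by
  rw [hev_sub', hev_C_mul', hev_C_mul']
  unfold wd bK
  ring

lemma pre_degree {d : ℕ} {p q : K[X]} (hR : Rat d p q) (y : K × K) :
    (C y.2 * p - C y.1 * q).natDegree ≤ d :=
  (natDegree_sub_le _ _).trans (max_le ((natDegree_C_mul_le _ _).trans (rat_degp hR))
    ((natDegree_C_mul_le _ _).trans (rat_degq hR)))

lemma pre_exists [IsAlgClosed K] {d : ℕ} (hd : 1 ≤ d) {p q : K[X]} (hR : Rat d p q)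
    (y : K × K) : ∃ z : K × K, z ≠ 0 ∧ wd (bK d p q z) y = 0 := by
  set g := C y.2 * p - C y.1 * q with hg
  by_cases h : g.coeff d = 0
  · refine ⟨(1, 0), by simp, ?_⟩
    rw [← pre_form, hev_zero, ← hg, h, zero_mul]
  · have h1 : g.natDegree = d := le_antisymm (pre_degree hR y) (le_natDegree_of_ne_zero h)
    obtain ⟨α, hα⟩ := IsAlgClosed.exists_root g (by
      intro h0
      have : _ = 0 := natDegree_eq_of_degree_eq_some h0
      omega)
    refine ⟨(α, 1), by simp, ?_⟩
    rw [← pre_form, hev_one d _ (pre_degree hR y), ← hg]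
    exact hα

lemma Wr_ne [CharZero K] {d : ℕ} (hd : 1 ≤ d) {p q : K[X]} (hR : Rat d p q) : Wr p q ≠ 0 := by
  intro h
  unfold Wr at h
  have h1 : q ∣ derivative q := by
    apply hR.1.symm.dvd_of_dvd_mul_left
    rw [← sub_eq_zero.mp h]
    exact dvd_mul_left _ _
  have h2 : p ∣ derivative p := by
    apply hR.1.dvd_of_dvd_mul_right
    rw [sub_eq_zero.mp h]
    exact dvd_mul_right _ _
  have key : ∀ f : K[X], f ∣ derivative f → f.natDegree = 0 := by
    intro f hf
    by_contra hne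
    have h3 : derivative f = 0 :=
      eq_zero_of_dvd_of_natDegree_lt hf (natDegree_derivative_lt hne)
    exact hne (derivative_eq_zero.mp h3)
  have h3 := hR.2
  rw [key p h2, key q h1] at h3
  simp at h3
  omega

/-- the Wronskian in terms of the form -/
lemma Wr_pre (p q : K[X]) (y : K × K) :
    C y.2 * Wr p q = Wr (C y.2 * p - C y.1 * q) q ∧
    C y.1 * Wr p q = Wr (C y.2 * p - C y.1 * q) p := by
  unfold Wr
  constructor
  · simp only [derivative_sub, derivative_mul, derivative_C, zero_mul, zero_add]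
    ring
  · simp only [derivative_sub, derivative_mul, derivative_C, zero_mul, zero_add]
    ring

/-- two preimages -/
lemma two_pre [CharZero K] [IsAlgClosed K] {d : ℕ} (hd : 2 ≤ d) {p q : K[X]} (hR : Rat d p q)
    {y : K × K} (hy : y ≠ 0) (hcr : ∀ z : K × K, z ≠ 0 → wd (bK d p q z) y = 0 → Jv d p q z ≠ 0) :
    ∃ y₁ y₂ : K × K, y₁ ≠ 0 ∧ y₂ ≠ 0 ∧ wd y₁ y₂ ≠ 0 ∧ wd (bK d p q y₁) y = 0 ∧
      wd (bK d p q y₂) y = 0 := by
  set g := C y.2 * p - C y.1 * q with hg
  have hgd : g.natDegree ≤ d := pre_degree hR y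
  have hWd := Wr_degree (by omega : 1 ≤ d) (rat_degp hR) (rat_degq hR)
  obtain ⟨hy1, hy2⟩ := Wr_pre p q y
  rw [← hg] at hy1 hy2
  have hyne : y.1 ≠ 0 ∨ y.2 ≠ 0 := by
    by_contra hcon
    push Not at hcon
    exact hy (Prod.ext hcon.1 hcon.2)
  by_cases h : g.coeff d = 0
  · -- the point at infinity is a preimage
    have hinf : wd (bK d p q (1, 0)) y = 0 := by
      rw [← pre_form, hev_zero, ← hg, h, zero_mul]
    have hJ := hcr (1, 0) (by simp) hinf
    have hg0 : g.natDegree ≠ 0 := by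
      intro h0
      apply hJ
      have hder : derivative g = 0 := derivative_of_natDegree_zero h0
      have e1 : ∀ f : K[X], f.natDegree ≤ d → (Wr g f).coeff (2 * d - 2) = 0 := by
        intro f hf
        unfold Wr
        rw [hder, zero_mul, zero_sub, coeff_neg, neg_eq_zero]
        apply coeff_eq_zero_of_natDegree_lt
        refine lt_of_le_of_lt natDegree_mul_le ?_
        have := natDegree_derivative_le f
        omega
      unfold Jv
      rw [hev_zero, one_pow, mul_one]
      rcases hyne with h1 | h1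
      · have := e1 p (rat_degp hR)
        rw [← hy2, coeff_C_mul] at this
        exact (mul_eq_zero.mp this).resolve_left h1
      · have := e1 q (rat_degq hR)
        rw [← hy1, coeff_C_mul] at this
        exact (mul_eq_zero.mp this).resolve_left h1
    obtain ⟨α, hα⟩ := IsAlgClosed.exists_root g (by
      intro h0
      exact hg0 (natDegree_eq_of_degree_eq_some h0))
    refine ⟨(1, 0), (α, 1), by simp, by simp, ?_, hinf, ?_⟩
    · unfold wd
      simp
    · rw [← pre_form, hev_one d _ hgd]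
      exact hα
  · have h1 : g.natDegree = d := le_antisymm hgd (le_natDegree_of_ne_zero h)
    obtain ⟨α, hα⟩ := IsAlgClosed.exists_root g (by
      intro h0
      have : _ = 0 := natDegree_eq_of_degree_eq_some h0
      omega)
    have hαp : wd (bK d p q (α, 1)) y = 0 := by
      rw [← pre_form, hev_one d _ hgd]
      exact hα
    have hJ := hcr (α, 1) (by simp) hαp
    have hJ' : (Wr p q).eval α ≠ 0 := by
      unfold Jv at hJ
      rwa [hev_one _ _ hWd] at hJ
    obtain ⟨g₁, hg₁⟩ := dvd_iff_isRoot.mpr hα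
    have hg0 : g ≠ 0 := by
      intro h0
      rw [h0, coeff_zero] at h
      exact h rfl
    have hg₁0 : g₁ ≠ 0 := by
      rintro rfl
      rw [mul_zero] at hg₁
      exact hg0 hg₁
    have hg₁d : g₁.natDegree = d - 1 := by
      have := natDegree_mul (X_sub_C_ne_zero α) hg₁0
      rw [← hg₁, natDegree_X_sub_C, h1] at this
      omega
    obtain ⟨β, hβ⟩ := IsAlgClosed.exists_root g₁ (by
      intro h0
      have : _ = 0 := natDegree_eq_of_degree_eq_some h0
      omega)
    have hβg : g.eval β = 0 := by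
      rw [hg₁, eval_mul, hβ.eq_zero, mul_zero]
    refine ⟨(α, 1), (β, 1), by simp, by simp, ?_, hαp, ?_⟩
    · intro h2
      have hαβ : α = β := by
        unfold wd at h2
        simp only [mul_one, one_mul] at h2
        exact sub_eq_zero.mp h2
      apply hJ'
      have hder : (derivative g).eval α = 0 := by
        rw [hg₁, derivative_mul, derivative_X_sub_C]
        simp only [eval_add, eval_mul, eval_one, one_mul, eval_sub, eval_X, eval_C, sub_self,
          zero_mul, add_zero]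
        rw [hαβ]
        exact hβ
      have e1 : ∀ f : K[X], (Wr g f).eval α = 0 := by
        intro f
        unfold Wr
        rw [eval_sub, eval_mul, eval_mul, hder, hα.eq_zero]
        ring
      rcases hyne with h3 | h3
      · have := e1 p
        rw [← hy2, eval_mul, eval_C] at this
        exact (mul_eq_zero.mp this).resolve_left h3
      · have := e1 q
        rw [← hy1, eval_mul, eval_C] at this
        exact (mul_eq_zero.mp this).resolve_left h3
    · rw [← pre_form, hev_one d _ hgd]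
      exact hβg

end

theorem t_PRE : S_PRE.{u} := by
  classical
  intro L _ _ _ d hd p q hR c hc hper
  have hd1 : 1 ≤ d := by omega
  -- a point is mapped to `c` by at most one iterate
  have huniq : ∀ s : L × L, s ≠ 0 → ∃ k₀, ∀ k, k₀ ≤ k → wd ((bK d p q)^[k] s) c ≠ 0 := by
    intro s hs
    by_cases h : ∃ j, wd ((bK d p q)^[j] s) c = 0
    · obtain ⟨j, hj⟩ := h
      refine ⟨j + 1, fun k hk h0 => ?_⟩
      obtain ⟨n, rfl⟩ : ∃ n, k = n + j := ⟨k - j, by omega⟩
      rw [Function.iterate_add_apply] at h0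
      obtain ⟨t, ht0, ht⟩ := iter_prop (d := d) (p := p) (q := q) n (iter_ne hR j hs) hc hj
      rw [ht, wd_smul_left] at h0
      exact hper n (by omega) ((mul_eq_zero.mp h0).resolve_left ht0)
    · push Not at h
      exact ⟨0, fun k _ => h k⟩
  -- from some level on no preimage is critical
  obtain ⟨k₀, hk₀⟩ : ∃ k₀, ∀ k, k₀ ≤ k → ∀ z : L × L, z ≠ 0 → wd ((bK d p q)^[k] z) c = 0 →
      Jv d p q z ≠ 0 := by
    choose! f hf using huniq
    have hW := Wr_ne hd1 hR
    have hWd := Wr_degree hd1 (rat_degp hR) (rat_degq hR)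
    refine ⟨max (f (1, 0)) (((Wr p q).roots.toFinset).sup fun α => f (α, 1)), ?_⟩
    intro k hk z hz h0 hJ
    by_cases hz2 : z.2 = 0
    · have hz1 : z.1 ≠ 0 := fun h => hz (Prod.ext h hz2)
      have e1 : z = z.1 • ((1, 0) : L × L) := by
        ext
        · simp
        · simp [hz2]
      rw [e1, iter_smul, wd_smul_left] at h0
      have h1 := (mul_eq_zero.mp h0).resolve_left (pow_ne_zero _ hz1)
      exact hf (1, 0) (by simp) k ((le_max_left _ _).trans hk) h1
    · have e1 : z = z.2 • ((z.1 / z.2, 1) : L × L) := by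
        ext
        · simp only [Prod.smul_fst, smul_eq_mul]
          field_simp
        · simp
      have hroot : z.1 / z.2 ∈ (Wr p q).roots.toFinset := by
        rw [Multiset.mem_toFinset, mem_roots hW, IsRoot.def]
        unfold Jv at hJ
        rw [hev_eval _ _ hWd z hz2] at hJ
        exact (mul_eq_zero.mp hJ).resolve_left (pow_ne_zero _ hz2)
      rw [e1, iter_smul, wd_smul_left] at h0
      have h1 := (mul_eq_zero.mp h0).resolve_left (pow_ne_zero _ hz2)
      refine hf (z.1 / z.2, 1) (by simp) k ?_ h1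
      refine le_trans ?_ hk
      refine le_trans ?_ (le_max_right _ _)
      exact Finset.le_sup (f := fun α => f (α, 1)) hroot
  -- a preimage at level `k₀`
  have hpre : ∀ k : ℕ, ∃ y : L × L, y ≠ 0 ∧ wd ((bK d p q)^[k] y) c = 0 := by
    intro k
    induction k with
    | zero => exact ⟨c, hc, wd_self c⟩
    | succ k ih =>
      obtain ⟨y, hy, h⟩ := ih
      obtain ⟨z, hz, h'⟩ := pre_exists hd1 hR y
      exact ⟨z, hz, lift_pre hR k hz hy h' h⟩
  obtain ⟨y, hy, hyc⟩ := hpre k₀
  obtain ⟨y₁, y₂, hy₁, hy₂, h12, hF1, hF2⟩ := two_pre hd hR hy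
    (fun z hz h => hk₀ (k₀ + 1) (by omega) z hz (lift_pre hR k₀ hz hy h hyc))
  have l1 := lift_pre hR k₀ hy₁ hy hF1 hyc
  have l2 := lift_pre hR k₀ hy₂ hy hF2 hyc
  obtain ⟨z₁, z₂, hz₁, hz₂, hz12, hG1, hG2⟩ := two_pre hd hR hy₁
    (fun z hz h => hk₀ (k₀ + 1 + 1) (by omega) z hz (lift_pre hR (k₀ + 1) hz hy₁ h l1))
  obtain ⟨z₃, hz₃, hG3⟩ := pre_exists hd1 hR y₂
  have hne : ∀ z : L × L, z ≠ 0 → wd (bK d p q z) y₁ = 0 → wd z z₃ ≠ 0 := by
    intro z hz hzy h0
    obtain ⟨t, ht0, ht⟩ := prop_of_wd hz hz₃ h0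
    rw [ht, bK_smul, wd_smul_left] at hzy
    have h1 := (mul_eq_zero.mp hzy).resolve_left (pow_ne_zero _ ht0)
    exact h12 (wd_trans (rat_bK_ne hR hz₃) (wd_symm0 h1) hG3)
  refine ⟨k₀ + 1 + 1, ![z₁, z₂, z₃], ?_, ?_, ?_⟩
  · intro i
    fin_cases i
    · exact hz₁
    · exact hz₂
    · exact hz₃
  · have a1 := hne z₁ hz₁ hG1
    have a2 := hne z₂ hz₂ hG2
    have key : ∀ X Y : L × L, wd X Y ≠ 0 → wd Y X ≠ 0 := fun X Y h h' => h (wd_symm0 h')
    intro i j hij
    fin_cases i <;> fin_cases j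
    · exact absurd rfl hij
    · exact hz12
    · exact a1
    · exact key _ _ hz12
    · exact absurd rfl hij
    · exact a2
    · exact key _ _ a1
    · exact key _ _ a2
    · exact absurd rfl hij
  · intro i
    fin_cases i
    · exact lift_pre hR (k₀ + 1) hz₁ hy₁ hG1 l1
    · exact lift_pre hR (k₀ + 1) hz₂ hy₁ hG2 l1
    · exact lift_pre hR (k₀ + 1) hz₃ hy₂ hG3 l2

end Pool.Agent.Q208.OP
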