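import Pool.Agent.Q208.OP.Tool

/-!
# Project OP: conjugation
-/

set_option autoImplicit false

namespace Pool.Agent.Q208.OP

open Pool.Agent.W277.UH Polynomial
open Pool.Agent.Y706.CH (bK)
open Pool.Agent.Q103.OP

universe u v

section wronskian

variable {K : Type u} [Field K]

lemma Wr_degree {d : ℕ} (hd : 1 ≤ d) {p q : K[X]} (hp : p.natDegree ≤ d) (hq : q.natDegree ≤ d) :
    (Wr p q).natDegree ≤ 2 * d - 2 := by
  obtain ⟨n, rfl⟩ : ∃ n, d = n + 1 := ⟨d - 1, by omega⟩
  have hp' : (derivative p).natDegree ≤ n := (natDegree_derivative_le p).trans (by omega)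
  have hq' : (derivative q).natDegree ≤ n := (natDegree_derivative_le q).trans (by omega)
  have h1 : (Wr p q).natDegree ≤ 2 * n + 1 := by
    unfold Wr
    refine (natDegree_sub_le _ _).trans (max_le ?_ ?_)
    · exact natDegree_mul_le.trans (by omega)
    · exact natDegree_mul_le.trans (by omega)
  have h2 : (Wr p q).coeff (2 * n + 1) = 0 := by
    unfold Wr
    have e1 : 2 * n + 1 = n + (n + 1) := by ring
    have e2 : 2 * n + 1 = (n + 1) + n := by ring
    rw [coeff_sub]
    conv_lhs => rw [e1, coeff_mul_add_eq_of_natDegree_le hp' hq]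
    rw [← e1, e2, coeff_mul_add_eq_of_natDegree_le hp hq', coeff_derivative, coeff_derivative]
    ring
  rw [natDegree_le_iff_coeff_eq_zero]
  intro N hN
  rcases Nat.lt_or_ge (2 * n + 1) N with h | h
  · exact coeff_eq_zero_of_natDegree_lt (lt_of_le_of_lt h1 h)
  · have : N = 2 * n + 1 := by omega
    rw [this]
    exact h2

lemma term_deriv (j n : ℕ) (a l m : K[X]) (ha : derivative a = 0) :
    m * derivative (a * l ^ (j + 1) * m ^ n) =
      (derivative l * m - l * derivative m) * (a * ((j : K[X]) + 1) * l ^ j * m ^ n) +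
      (((j + n + 1 : ℕ)) : K[X]) * derivative m * (a * l ^ (j + 1) * m ^ n) := by
  have h1 : m * ((n : K[X]) * m ^ (n - 1)) = (n : K[X]) * m ^ n := by
    rcases Nat.eq_zero_or_pos n with h | h
    · subst h
      simp
    · obtain ⟨k, rfl⟩ : ∃ k, n = k + 1 := ⟨n - 1, by omega⟩
      rw [Nat.add_sub_cancel]
      ring
  have h2 : derivative (a * l ^ (j + 1) * m ^ n) =
      a * (((j : K[X]) + 1) * l ^ j * derivative l) * m ^ n +
      a * l ^ (j + 1) * ((n : K[X]) * m ^ (n - 1) * derivative m) := by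
    rw [derivative_mul, derivative_mul, ha, derivative_pow, derivative_pow]
    simp only [zero_mul, zero_add, Nat.add_sub_cancel, C_eq_natCast]
    push_cast
    ring
  rw [h2]
  push_cast
  linear_combination (a * l ^ (j + 1) * derivative m) * h1

lemma hc_deriv (d : ℕ) (p l m : K[X]) :
    m * derivative (hc (d + 1) p l m) =
      (derivative l * m - l * derivative m) * hc d (derivative p) l m +
      ((d + 1 : ℕ) : K[X]) * derivative m * hc (d + 1) p l m := by
  have e1 : hc (d + 1) p l m = (∑ j ∈ Finset.range (d + 1),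
      C (p.coeff (j + 1)) * l ^ (j + 1) * m ^ (d - j)) + C (p.coeff 0) * m ^ (d + 1) := by
    unfold hc hev
    rw [Finset.sum_range_succ' _ (d + 1)]
    simp only [coeff_map, pow_zero, mul_one, Nat.sub_zero, Nat.add_sub_add_right]
  have e2 : hc d (derivative p) l m = ∑ j ∈ Finset.range (d + 1),
      C (p.coeff (j + 1)) * ((j : K[X]) + 1) * l ^ j * m ^ (d - j) := by
    unfold hc hev
    refine Finset.sum_congr rfl fun j _ => ?_
    simp only [coeff_map, coeff_derivative, C_mul, C_add, C_1, C_eq_natCast]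
  rw [e1, e2, derivative_add, derivative_sum, mul_add, Finset.mul_sum, mul_add, Finset.mul_sum,
    Finset.mul_sum]
  have e3 : ∀ j ∈ Finset.range (d + 1),
      m * derivative (C (p.coeff (j + 1)) * l ^ (j + 1) * m ^ (d - j)) =
      (derivative l * m - l * derivative m) *
        (C (p.coeff (j + 1)) * ((j : K[X]) + 1) * l ^ j * m ^ (d - j)) +
      (((d + 1 : ℕ)) : K[X]) * derivative m *
        (C (p.coeff (j + 1)) * l ^ (j + 1) * m ^ (d - j)) := by
    intro j hj
    rw [Finset.mem_range] at hj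
    have := term_deriv j (d - j) (C (p.coeff (j + 1))) l m derivative_C
    rw [show j + (d - j) + 1 = d + 1 by omega] at this
    exact this
  rw [Finset.sum_congr rfl e3, Finset.sum_add_distrib]
  have e4 : m * derivative (C (p.coeff 0) * m ^ (d + 1)) =
      ((d + 1 : ℕ) : K[X]) * derivative m * (C (p.coeff 0) * m ^ (d + 1)) := by
    rw [derivative_mul, derivative_C, derivative_pow]
    simp only [zero_mul, zero_add, Nat.add_sub_cancel, C_eq_natCast]
    ring
  rw [e4]
  ring

lemma hc_mul' [Infinite K] (m n : ℕ) (f g l t : K[X]) (hf : f.natDegree ≤ m)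
    (hg : g.natDegree ≤ n) : hc (m + n) (f * g) l t = hc m f l t * hc n g l t := by
  apply Polynomial.funext
  intro x
  rw [eval_mul, hc_eval, hc_eval, hc_eval, hev_mul' m n f g hf hg]

lemma hc_sub' [Infinite K] (n : ℕ) (f g l t : K[X]) :
    hc n (f - g) l t = hc n f l t - hc n g l t := by
  apply Polynomial.funext
  intro x
  rw [eval_sub, hc_eval, hc_eval, hc_eval, hev_sub']

lemma hc_lift [Infinite K] (n k : ℕ) (f l t : K[X]) (hf : f.natDegree ≤ n) :
    hc (n + k) f l t = t ^ k * hc n f l t := by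
  apply Polynomial.funext
  intro x
  rw [eval_mul, eval_pow, hc_eval, hc_eval, hev_lift n k f hf]

/-- the Wronskian after a substitution -/
lemma Wr_hc [Infinite K] {d : ℕ} (hd : 1 ≤ d) {p q l m : K[X]} (hp : p.natDegree ≤ d)
    (hq : q.natDegree ≤ d) (hm : m ≠ 0) : Wr (hc d p l m) (hc d q l m) =
      (derivative l * m - l * derivative m) * hc (2 * d - 2) (Wr p q) l m := by
  apply mul_left_cancel₀ hm
  have hW := Wr_degree hd hp hq
  obtain ⟨n, rfl⟩ : ∃ n, d = n + 1 := ⟨d - 1, by omega⟩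
  have hp' : (derivative p).natDegree ≤ n := (natDegree_derivative_le p).trans (by omega)
  have hq' : (derivative q).natDegree ≤ n := (natDegree_derivative_le q).trans (by omega)
  have e0 : 2 * (n + 1) - 2 = 2 * n := by omega
  rw [e0] at hW ⊢
  have h1 := hc_deriv n p l m
  have h2 := hc_deriv n q l m
  have h3 : hc (2 * n + 1) (Wr p q) l m = m * hc (2 * n) (Wr p q) l m := by
    have := hc_lift (2 * n) 1 (Wr p q) l m hW
    rwa [pow_one] at this
  have h4 : hc (2 * n + 1) (Wr p q) l m = hc n (derivative p) l m * hc (n + 1) q l m -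
      hc (n + 1) p l m * hc n (derivative q) l m := by
    unfold Wr
    rw [hc_sub']
    have e1 : 2 * n + 1 = n + (n + 1) := by ring
    have e2 : 2 * n + 1 = (n + 1) + n := by ring
    congr 1
    · rw [e1, hc_mul' _ _ _ _ _ _ hp' hq]
    · rw [e2, hc_mul' _ _ _ _ _ _ hp hq']
  rw [h3] at h4
  have h5 : Wr (hc (n + 1) p l m) (hc (n + 1) q l m) = derivative (hc (n + 1) p l m) *
    hc (n + 1) q l m - hc (n + 1) p l m * derivative (hc (n + 1) q l m) := rfl
  rw [h5]
  linear_combination (hc (n + 1) q l m) * h1 - (hc (n + 1) p l m) * h2 -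
    (derivative l * m - l * derivative m) * h4

end wronskian

section conj

variable {K : Type u} [Field K]

lemma lin_ne {a b c e : K} (h : a * e - b * c ≠ 0) : (C c * X + C e : K[X]) ≠ 0 := by
  intro h0
  have h1 := congrArg (fun f => f.coeff 0) h0
  have h2 := congrArg (fun f => f.coeff 1) h0
  simp at h1 h2
  apply h
  rw [h1, h2]
  ring

lemma lin_wr (a b c e : K) : derivative (C a * X + C b : K[X]) * (C c * X + C e) -
    (C a * X + C b) * derivative (C c * X + C e : K[X]) = C (a * e - b * c) := by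
  simp only [derivative_add, derivative_mul, derivative_C, derivative_X, zero_mul, mul_one,
    add_zero, zero_add, C_sub, C_mul]
  ring

/-- conjugation in terms of polynomials -/
lemma cj_poly [Infinite K] {d : ℕ} {a b c e : K} {p q u w : K[X]} (hp : p.natDegree ≤ d)
    (hq : q.natDegree ≤ d)
    (h : ∀ Z : K × K, bK d u w (lm a b c e Z) = lm a b c e (bK d p q Z)) :
    hc d u (C a * X + C b) (C c * X + C e) = C a * p + C b * q ∧
    hc d w (C a * X + C b) (C c * X + C e) = C c * p + C e * q := by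
  constructor
  · apply Polynomial.funext
    intro z
    have h1 := congrArg Prod.fst (h (z, 1))
    unfold bK lm at h1
    simp only [mul_one] at h1
    rw [hev_one d p hp, hev_one d q hq] at h1
    rw [hc_eval]
    simpa using h1
  · apply Polynomial.funext
    intro z
    have h1 := congrArg Prod.snd (h (z, 1))
    unfold bK lm at h1
    simp only [mul_one] at h1
    rw [hev_one d p hp, hev_one d q hq] at h1
    rw [hc_eval]
    simpa using h1

lemma cj_of_poly {d : ℕ} {a b c e : K} {p q u w : K[X]}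
    (h1 : hc d u (C a * X + C b) (C c * X + C e) = C a * p + C b * q)
    (h2 : hc d w (C a * X + C b) (C c * X + C e) = C c * p + C e * q) (Z : K × K) :
    bK d u w (lm a b c e Z) = lm a b c e (bK d p q Z) := by
  have e1 := hev_lm d u a b c e Z
  have e2 := hev_lm d w a b c e Z
  rw [h1, hev_add', hev_C_mul', hev_C_mul'] at e1
  rw [h2, hev_add', hev_C_mul', hev_C_mul'] at e2
  unfold bK
  rw [← e1, ← e2]
  rfl

/-- the conjugate of a map -/
lemma cj_exists {d : ℕ} {a b c e : K} (h : a * e - b * c ≠ 0) (p q : K[X]) :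
    ∃ u w : K[X], u.natDegree ≤ d ∧ w.natDegree ≤ d ∧
      ∀ {L : Type u} [Field L] (j : K →+* L) (Z : L × L),
      bK d (u.map j) (w.map j) Z = lm (j a) (j b) (j c) (j e) (bK d (p.map j) (q.map j)
        (lm (j (e / (a * e - b * c))) (j (-b / (a * e - b * c))) (j (-c / (a * e - b * c)))
          (j (a / (a * e - b * c))) Z)) := by
  set P := hc d p (C (e / (a * e - b * c)) * X + C (-b / (a * e - b * c)))
    (C (-c / (a * e - b * c)) * X + C (a / (a * e - b * c))) with hP
  set Q := hc d q (C (e / (a * e - b * c)) * X + C (-b / (a * e - b * c)))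
    (C (-c / (a * e - b * c)) * X + C (a / (a * e - b * c))) with hQ
  have hPd : P.natDegree ≤ d := hc_lin_degree _ _ _ _ _ _
  have hQd : Q.natDegree ≤ d := hc_lin_degree _ _ _ _ _ _
  have hdeg : ∀ x y : K, (C x * P + C y * Q).natDegree ≤ d := by
    intro x y
    refine (natDegree_add_le _ _).trans (max_le ?_ ?_)
    · exact (natDegree_C_mul_le _ _).trans hPd
    · exact (natDegree_C_mul_le _ _).trans hQd
  refine ⟨C a * P + C b * Q, C c * P + C e * Q, hdeg _ _, hdeg _ _, ?_⟩
  intro L _ j Z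
  have e1 : hev d (P.map j) Z = hev d (p.map j) (lm (j (e / (a * e - b * c)))
      (j (-b / (a * e - b * c))) (j (-c / (a * e - b * c))) (j (a / (a * e - b * c))) Z) := by
    rw [← hev_lm, hP, hc_map']
    simp only [Polynomial.map_add, Polynomial.map_mul, map_C, map_X]
  have e2 : hev d (Q.map j) Z = hev d (q.map j) (lm (j (e / (a * e - b * c)))
      (j (-b / (a * e - b * c))) (j (-c / (a * e - b * c))) (j (a / (a * e - b * c))) Z) := by
    rw [← hev_lm, hQ, hc_map']
    simp only [Polynomial.map_add, Polynomial.map_mul, map_C, map_X]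
  unfold bK
  simp only [Polynomial.map_add, Polynomial.map_mul, map_C]
  rw [hev_add', hev_C_mul', hev_C_mul', hev_add', hev_C_mul', hev_C_mul', e1, e2]
  rfl

/-- the Jacobian of a conjugate -/
lemma cj_Jv [Infinite K] {d : ℕ} (hd : 1 ≤ d) {a b c e : K} (hD : a * e - b * c ≠ 0)
    {p q u w : K[X]} (hp : p.natDegree ≤ d) (hq : q.natDegree ≤ d) (hu : u.natDegree ≤ d)
    (hw : w.natDegree ≤ d)
    (h : ∀ Z : K × K, bK d u w (lm a b c e Z) = lm a b c e (bK d p q Z)) (Z : K × K) :
    Jv d u w (lm a b c e Z) = Jv d p q Z := by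
  obtain ⟨h1, h2⟩ := cj_poly hp hq h
  have h3 := Wr_hc hd hu hw (l := C a * X + C b) (lin_ne hD)
  rw [lin_wr, h1, h2] at h3
  have h4 : Wr (C a * p + C b * q) (C c * p + C e * q) = C (a * e - b * c) * Wr p q := by
    unfold Wr
    simp only [derivative_add, derivative_mul, derivative_C, zero_mul, zero_add, C_sub, C_mul]
    ring
  rw [h4] at h3
  have h5 := mul_left_cancel₀ (C_ne_zero.mpr hD) h3
  unfold Jv
  rw [h5, hev_lm]

lemma det_inv {a b c e : K} (h : a * e - b * c ≠ 0) :
    (e / (a * e - b * c)) * (a / (a * e - b * c)) -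
      (-b / (a * e - b * c)) * (-c / (a * e - b * c)) ≠ 0 := by
  obtain ⟨D, hD⟩ : ∃ D, D = a * e - b * c := ⟨_, rfl⟩
  rw [← hD] at h ⊢
  have : e / D * (a / D) - -b / D * (-c / D) = D⁻¹ := by
    field_simp
    rw [hD]
    ring
  rw [this]
  exact inv_ne_zero h

lemma cj_symm {d : ℕ} {a b c e : K} {p q u w : K[X]} (h : CJ d a b c e p q u w) :
    CJ d (e / (a * e - b * c)) (-b / (a * e - b * c)) (-c / (a * e - b * c))
      (a / (a * e - b * c)) u w p q := by
  refine ⟨det_inv h.1, fun Z => ?_⟩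
  have h1 := h.2 (lm (e / (a * e - b * c)) (-b / (a * e - b * c)) (-c / (a * e - b * c))
      (a / (a * e - b * c)) Z)
  rw [lm_inv h.1] at h1
  rw [h1, lm_inv' h.1]

end conj

section lattes

variable {K : Type u} [Field K]

/-- Lattes maps in terms of forms -/
def HLat (d : ℕ) (p q : K[X]) : Prop :=
  ∃ (e : ℕ) (R S : K[X]), R ≠ 0 ∧ S ≠ 0 ∧ R.natDegree ≤ e ∧ S.natDegree ≤ e + 4 ∧
    ∀ Z : K × K, hev e R (bK d p q Z) * Jv d p q Z ^ 2 * hev (e + 4) S Z =
      d * hev e R Z * hev (e + 4) S (bK d p q Z)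

lemma hev_pow' (n k : ℕ) (f : K[X]) (hf : f.natDegree ≤ n) (Z : K × K) :
    hev (k * n) (f ^ k) Z = hev n f Z ^ k := by
  induction k with
  | zero =>
    rw [zero_mul, pow_zero, pow_zero]
    unfold hev
    simp
  | succ k ih =>
    rw [pow_succ, add_mul, one_mul, hev_mul' (k * n) n (f ^ k) f
      (natDegree_pow_le.trans (Nat.mul_le_mul_left _ hf)) hf, ih, pow_succ]

lemma lat_iff [Infinite K] {d : ℕ} (hd : 1 ≤ d) {p q : K[X]} (hp : p.natDegree ≤ d)
    (hq : q.natDegree ≤ d) : Lat d p q ↔ HLat d p q := by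
  have hW := Wr_degree hd hp hq
  constructor
  · rintro ⟨e, r, s, hr0, hs0, hr, hs, h⟩
    refine ⟨e, r, s, hr0, hs0, hr, hs.trans (by omega), fun Z => ?_⟩
    have hs4 : s.natDegree ≤ e + 4 := hs.trans (by omega)
    have e1 : hev (e * d + 2 * (2 * d - 2) + (e + 4)) (hc e r p q * Wr p q ^ 2 * s) Z =
        hev e r (bK d p q Z) * Jv d p q Z ^ 2 * hev (e + 4) s Z := by
      rw [hev_mul' _ _ _ _ (natDegree_mul_le.trans (add_le_add (hc_degree e d r p q hp hq)
        (natDegree_pow_le.trans (Nat.mul_le_mul_left _ hW)))) hs4,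
        hev_mul' _ _ _ _ (hc_degree e d r p q hp hq)
        (natDegree_pow_le.trans (Nat.mul_le_mul_left _ hW)), hev_comp e d r p q hp hq,
        hev_pow' _ _ _ hW]
      rfl
    have e2 : hev ((e + e * d) + 4 * d) (C (d : K) * r * hc e s p q * q ^ 4) Z =
        d * hev e r Z * hev (e + 4) s (bK d p q Z) := by
      have hCr : (C (d : K) * r).natDegree ≤ e := (natDegree_C_mul_le _ _).trans hr
      rw [hev_mul' _ _ _ _ (natDegree_mul_le.trans (add_le_add hCr
        (hc_degree e d s p q hp hq))) (natDegree_pow_le.trans (Nat.mul_le_mul_left _ hq)),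
        hev_mul' _ _ _ _ hCr (hc_degree e d s p q hp hq), hev_comp e d s p q hp hq,
        hev_pow' _ _ _ hq, hev_C_mul', hev_lift e 4 s hs]
      unfold bK
      ring
    have e3 : e * d + 2 * (2 * d - 2) + (e + 4) = (e + e * d) + 4 * d := by
      have : 2 * d - 2 + 2 = 2 * d := by omega
      omega
    rw [← e1, ← e2, e3, h]
  · rintro ⟨e, R, S, hR0, hS0, hR, hS, h⟩
    refine ⟨e + 4, R, S, hR0, hS0, hR.trans (by omega), hS, ?_⟩
    apply Polynomial.funext
    intro z
    have h1 := h (z, 1)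
    have e1 : bK d p q (z, 1) = (p.eval z, q.eval z) := by
      unfold bK
      rw [hev_one d p hp, hev_one d q hq]
    have e2 : Jv d p q (z, 1) = (Wr p q).eval z := by
      unfold Jv
      rw [hev_one _ _ hW]
    rw [e1, e2, hev_one _ _ hS, hev_one _ _ hR] at h1
    simp only [eval_mul, eval_pow, eval_C, hc_eval]
    rw [hev_lift e 4 R hR]
    linear_combination (q.eval z) ^ 4 * h1

lemma hlat_conj [Infinite K] {d : ℕ} (hd : 1 ≤ d) {a b c e : K} {p q u w : K[X]}
    (hp : p.natDegree ≤ d) (hq : q.natDegree ≤ d) (hu : u.natDegree ≤ d)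
    (hw : w.natDegree ≤ d) (h : CJ d a b c e p q u w) (hL : HLat d p q) : HLat d u w := by
  obtain ⟨n, R, S, hR0, hS0, hR, hS, hRS⟩ := hL
  have hD := h.1
  obtain ⟨a', ha'⟩ : ∃ a', a' = e / (a * e - b * c) := ⟨_, rfl⟩
  obtain ⟨b', hb'⟩ : ∃ b', b' = -b / (a * e - b * c) := ⟨_, rfl⟩
  obtain ⟨c', hc'⟩ : ∃ c', c' = -c / (a * e - b * c) := ⟨_, rfl⟩
  obtain ⟨e', he'⟩ : ∃ e', e' = a / (a * e - b * c) := ⟨_, rfl⟩
  have i1 : ∀ Z : K × K, lm a b c e (lm a' b' c' e' Z) = Z := by
    intro Z
    rw [ha', hb', hc', he', lm_inv hD]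
  have i2 : ∀ Z : K × K, lm a' b' c' e' (lm a b c e Z) = Z := by
    intro Z
    rw [ha', hb', hc', he', lm_inv' hD]
  have hne : ∀ (k : ℕ) (f : K[X]), f.natDegree ≤ k → f ≠ 0 →
      hc k f (C a' * X + C b') (C c' * X + C e') ≠ 0 := by
    intro k f hf hf0 h0
    apply hf0
    apply hev_ext k f 0 hf (by simp)
    intro z
    have h1 := hev_lm k f a' b' c' e' (lm a b c e (z, 1))
    rw [h0, i2] at h1
    rw [← h1]
    unfold hev
    simp
  refine ⟨n, hc n R (C a' * X + C b') (C c' * X + C e'),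
    hc (n + 4) S (C a' * X + C b') (C c' * X + C e'), hne _ _ hR hR0, hne _ _ hS hS0,
    hc_lin_degree _ _ _ _ _ _, hc_lin_degree _ _ _ _ _ _, fun Y => ?_⟩
  rw [hev_lm, hev_lm, hev_lm, hev_lm]
  have h1 : lm a' b' c' e' (bK d u w Y) = bK d p q (lm a' b' c' e' Y) := by
    have := h.2 (lm a' b' c' e' Y)
    rw [i1] at this
    rw [this, i2]
  have h2 : Jv d u w Y = Jv d p q (lm a' b' c' e' Y) := by
    have := cj_Jv hd hD hp hq hu hw h.2 (lm a' b' c' e' Y)
    rwa [i1] at this
  rw [h1, h2]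
  exact hRS _

end lattes

end Pool.Agent.Q208.OP
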