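import Pool.Agent.Q289.OP.Defs

/-!
# Project OP of helper289: from boxes to the whole space (core of `S_FUL`)
-/

set_option autoImplicit false
set_option linter.unusedSectionVars false

namespace Pool.Agent.Q208.OP.Ful

open MeasureTheory Set Filter Topology Q289.OP

theorem exhaust {U : Set ℝ} (hO : IsOpen U) (hC : U.OrdConnected) (hN : U.Nonempty) :
    ∃ A B : ℕ → ℝ, (∀ n, A n ∈ U) ∧ (∀ n, B n ∈ U) ∧ (∀ n, A n < B n) ∧ Antitone A ∧ Monotone B ∧
      ∀ x ∈ U, ∃ n, A n < x ∧ x < B n := by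
  classical
  obtain ⟨x0, hx0⟩ := hN
  obtain ⟨ε, hε, hb⟩ := Metric.isOpen_iff.1 hO x0 hx0
  have hx1 : x0 + ε / 2 ∈ U := by
    refine hb ?_
    rw [Metric.mem_ball, Real.dist_eq]
    have h1 : x0 + ε / 2 - x0 = ε / 2 := by ring
    rw [h1, abs_of_pos (by positivity)]
    linarith
  obtain ⟨e, he⟩ := exists_surjective_nat ℚ
  let A : ℕ → ℝ := fun n => Nat.rec x0 (fun k a => if ((e k : ℚ) : ℝ) ∈ U then min a (e k) else a) n
  let B : ℕ → ℝ := fun n => Nat.rec (x0 + ε / 2)
    (fun k b => if ((e k : ℚ) : ℝ) ∈ U then max b (e k) else b) n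
  have hA0 : A 0 = x0 := rfl
  have hB0 : B 0 = x0 + ε / 2 := rfl
  have hAs : ∀ n, A (n + 1) = if ((e n : ℚ) : ℝ) ∈ U then min (A n) (e n) else A n := fun n => rfl
  have hBs : ∀ n, B (n + 1) = if ((e n : ℚ) : ℝ) ∈ U then max (B n) (e n) else B n := fun n => rfl
  have hA : Antitone A := by
    refine antitone_nat_of_succ_le fun n => ?_
    rw [hAs]
    split_ifs
    · exact min_le_left _ _
    · exact le_rfl
  have hB : Monotone B := by
    refine monotone_nat_of_le_succ fun n => ?_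
    rw [hBs]
    split_ifs
    · exact le_max_left _ _
    · exact le_rfl
  refine ⟨A, B, fun n => ?_, fun n => ?_, fun n => ?_, hA, hB, fun x hx => ?_⟩
  · induction n with
    | zero => exact hx0
    | succ n ih =>
      rw [hAs]
      split_ifs with h
      · rcases min_choice (A n) (e n : ℝ) with h1 | h1 <;> rw [h1]
        · exact ih
        · exact h
      · exact ih
  · induction n with
    | zero => exact hx1
    | succ n ih =>
      rw [hBs]
      split_ifs with h
      · rcases max_choice (B n) (e n : ℝ) with h1 | h1 <;> rw [h1]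
        · exact ih
        · exact h
      · exact ih
  · have h1 : A n ≤ x0 := hA (Nat.zero_le n)
    have h2 : x0 + ε / 2 ≤ B n := hB (Nat.zero_le n)
    linarith
  · obtain ⟨δ, hδ, hb'⟩ := Metric.isOpen_iff.1 hO x hx
    obtain ⟨p, hp1, hp2⟩ := exists_rat_btwn (show x - δ < x by linarith)
    obtain ⟨q, hq1, hq2⟩ := exists_rat_btwn (show x < x + δ by linarith)
    obtain ⟨k, hk⟩ := he p
    obtain ⟨l, hl⟩ := he q
    have hp : ((e k : ℚ) : ℝ) ∈ U := by
      rw [hk]
      refine hb' ?_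
      rw [Metric.mem_ball, Real.dist_eq, abs_lt]
      constructor <;> linarith
    have hq : ((e l : ℚ) : ℝ) ∈ U := by
      rw [hl]
      refine hb' ?_
      rw [Metric.mem_ball, Real.dist_eq, abs_lt]
      constructor <;> linarith
    refine ⟨max (k + 1) (l + 1), ?_, ?_⟩
    · have h1 : A (max (k + 1) (l + 1)) ≤ A (k + 1) := hA (le_max_left _ _)
      have h2 : A (k + 1) ≤ (e k : ℝ) := by
        rw [hAs, if_pos hp]
        exact min_le_right _ _
      rw [hk] at h2
      linarith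
    · have h1 : B (l + 1) ≤ B (max (k + 1) (l + 1)) := hB (Nat.le_max_right (k + 1) (l + 1))
      have h2 : (e l : ℝ) ≤ B (l + 1) := by
        rw [hBs, if_pos hq]
        exact le_max_right _ _
      rw [hl] at h2
      linarith

section

variable {ι : Type} [Fintype ι] [DecidableEq ι] [PartialOrder ι]

theorem meas_mono : MeasurableSet {x : ι → ℝ | Monotone x} := by
  have h1 : {x : ι → ℝ | Monotone x} = ⋂ i, ⋂ j, {x : ι → ℝ | i ≤ j → x i ≤ x j} := by
    ext x
    simp only [mem_ofPred_eq, mem_iInter]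
    exact ⟨fun h i j hij => h hij, fun h i j hij => h i j hij⟩
  rw [h1]
  refine MeasurableSet.iInter fun i => MeasurableSet.iInter fun j => ?_
  by_cases hij : i ≤ j
  · simp only [hij, true_implies]
    exact measurableSet_le (measurable_pi_apply i) (measurable_pi_apply j)
  · simp only [hij, false_implies]
    exact MeasurableSet.univ

theorem den_eq (φ : ℝ → ℝ) : (fun x : ι → ℝ => den φ x) =
    {x : ι → ℝ | Monotone x}.indicator fun x => ∏ i, φ (x i) := by
  classical
  funext x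
  unfold den
  by_cases h : Monotone x
  · rw [if_pos h, indicator_of_mem (show x ∈ {x : ι → ℝ | Monotone x} from h)]
  · rw [if_neg h, indicator_of_notMem (show x ∉ {x : ι → ℝ | Monotone x} from h)]

theorem den_nonneg {φ : ℝ → ℝ} (h0 : ∀ x, 0 ≤ φ x) (x : ι → ℝ) : 0 ≤ den φ x := by
  unfold den
  split_ifs
  · exact Finset.prod_nonneg fun i _ => h0 _
  · exact le_rfl

theorem den_int {φ : ℝ → ℝ} (hi : Integrable φ) : Integrable fun x : ι → ℝ => den φ x := by
  rw [den_eq]
  refine Integrable.indicator ?_ meas_mono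
  exact Integrable.fintype_prod (f := fun _ => φ) fun _ => hi

/-- the box -/
def bx (ι : Type) (A B : ℝ) : Set (ι → ℝ) := {x | ∀ i, x i ∈ Ico A B}

theorem bx_meas (A B : ℝ) : MeasurableSet (bx ι A B) := by
  have : bx ι A B = Set.pi univ fun _ => Ico A B := by
    ext x
    simp [bx]
  rw [this]
  exact MeasurableSet.univ_pi fun _ => measurableSet_Ico

theorem IA_eq (φ : ℝ → ℝ) (A B : ℝ) (g : (ι → ℝ) → ℝ) :
    IA φ A B g = ∫ x in bx ι A B, g x * den φ x := by
  have h1 : {x : ι → ℝ | (∀ i, x i ∈ Ico A B) ∧ Monotone x} =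
      {x : ι → ℝ | Monotone x} ∩ bx ι A B := by
    ext x
    exact and_comm
  have h2 : ∀ x : ι → ℝ, g x * den φ x =
      {x : ι → ℝ | Monotone x}.indicator (fun x => g x * ∏ i, φ (x i)) x := by
    intro x
    have h3 : den φ x = {x : ι → ℝ | Monotone x}.indicator (fun x => ∏ i, φ (x i)) x :=
      congrFun (den_eq φ) x
    rw [h3]
    by_cases h : x ∈ {x : ι → ℝ | Monotone x}
    · rw [indicator_of_mem h, indicator_of_mem h]
    · rw [indicator_of_notMem h, indicator_of_notMem h, mul_zero]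
  rw [IA, h1]
  simp only [h2]
  rw [setIntegral_indicator meas_mono, inter_comm]

theorem pos_den {φ : ℝ → ℝ} (hφ : Dn φ) : 0 < ∫ x : ι → ℝ, den φ x := by
  classical
  obtain ⟨U, hO, hC, ⟨x0, hx0⟩, hc, hp, hz⟩ := hφ.supp
  obtain ⟨ε, hε, hb⟩ := Metric.isOpen_iff.1 hO x0 hx0
  rw [integral_pos_iff_support_of_nonneg (fun x => den_nonneg hφ.nonneg x) (den_int hφ.int)]
  set r : ι → ℕ := fun i => (Finset.univ.filter fun j => j < i).card with hr
  set n : ℕ := Fintype.card ι with hn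
  have hrn : ∀ i, r i ≤ n := fun i => Finset.card_le_univ _
  have hrm : ∀ i j, i < j → r i + 1 ≤ r j := by
    intro i j hij
    refine Finset.card_lt_card ?_
    rw [Finset.ssubset_iff_of_subset]
    · exact ⟨i, by simpa using hij, by simp⟩
    · intro k hk
      rw [Finset.mem_filter] at hk ⊢
      exact ⟨hk.1, hk.2.trans hij⟩
  set δ : ℝ := ε / (n + 2) with hδ
  have hδ0 : 0 < δ := by positivity
  have hδε : δ * (n + 2) = ε := by rw [hδ]; field_simp
  set V : Set (ι → ℝ) := Set.pi univ fun i => Metric.ball (x0 + δ * r i) (δ / 2) with hV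
  have hVo : IsOpen V := isOpen_set_pi finite_univ fun i _ => Metric.isOpen_ball
  have hVn : V.Nonempty := ⟨fun i => x0 + δ * r i, fun i _ => Metric.mem_ball_self (by positivity)⟩
  refine (hVo.measure_pos volume hVn).trans_le (measure_mono fun x hx => ?_)
  have hx' : ∀ i, |x i - (x0 + δ * r i)| < δ / 2 := fun i => by
    have := hx i (mem_univ i)
    rwa [Metric.mem_ball, Real.dist_eq] at this
  have hm : Monotone x := by
    intro i j hij
    rcases eq_or_lt_of_le hij with h | h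
    · rw [h]
    · have h1 := hrm i j h
      have h2 : (r i : ℝ) + 1 ≤ r j := by exact_mod_cast h1
      have h3 := abs_lt.1 (hx' i)
      have h4 := abs_lt.1 (hx' j)
      nlinarith
  have hU : ∀ i, x i ∈ U := by
    intro i
    refine hb ?_
    rw [Metric.mem_ball, Real.dist_eq, abs_lt]
    have h3 := abs_lt.1 (hx' i)
    have h4 : (r i : ℝ) ≤ n := by exact_mod_cast hrn i
    have h5 : (0 : ℝ) ≤ r i := by positivity
    constructor <;> nlinarith
  rw [Function.mem_support]
  unfold den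
  rw [if_pos hm]
  exact (Finset.prod_pos fun i _ => hp _ (hU i)).ne'

theorem union_bx {U : Set ℝ} {A B : ℕ → ℝ} (hC : U.OrdConnected) (hA : ∀ n, A n ∈ U)
    (hB : ∀ n, B n ∈ U) (hAm : Antitone A) (hBm : Monotone B)
    (h : ∀ x ∈ U, ∃ n, A n < x ∧ x < B n) :
    ⋃ n, bx ι (A n) (B n) = {x : ι → ℝ | ∀ i, x i ∈ U} := by
  ext x
  rw [mem_iUnion]
  constructor
  · rintro ⟨n, hn⟩ i
    exact hC.out (hA n) (hB n) ⟨(hn i).1, (hn i).2.le⟩
  · intro hx
    choose k hk using fun i => h (x i) (hx i)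
    refine ⟨Finset.univ.sup k, fun i => ?_⟩
    have h1 : k i ≤ Finset.univ.sup k := Finset.le_sup (Finset.mem_univ i)
    exact ⟨(hAm h1).trans (hk i).1.le, (hk i).2.trans_le (hBm h1)⟩

theorem bx_mono {A B : ℕ → ℝ} (hAm : Antitone A) (hBm : Monotone B) :
    Monotone fun n => bx ι (A n) (B n) := by
  intro m n hmn x hx i
  exact ⟨(hAm hmn).trans (hx i).1, (hx i).2.trans_le (hBm hmn)⟩

theorem lim_IA {φ : ℝ → ℝ} (hφ : Dn φ) {U : Set ℝ} {A B : ℕ → ℝ} (hC : U.OrdConnected)
    (hz : ∀ᵐ x : ℝ, x ∉ U → φ x = 0) (hA : ∀ n, A n ∈ U)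
    (hB : ∀ n, B n ∈ U) (hAm : Antitone A) (hBm : Monotone B)
    (h : ∀ x ∈ U, ∃ n, A n < x ∧ x < B n) (g : (ι → ℝ) → ℝ)
    (hg : Integrable fun x => g x * den φ x) :
    Tendsto (fun n => IA φ (A n) (B n) g) atTop (𝓝 (∫ x, g x * den φ x)) := by
  have h1 : ∫ x, g x * den φ x = ∫ x in ⋃ n, bx ι (A n) (B n), g x * den φ x := by
    rw [union_bx hC hA hB hAm hBm h]
    refine (setIntegral_eq_integral_of_ae_compl_eq_zero ?_).symm
    have h2 : ∀ᵐ x : ι → ℝ, ∀ i, x i ∉ U → φ (x i) = 0 := by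
      rw [ae_all_iff]
      intro i
      exact (Measure.tendsto_eval_ae_ae (μ := fun _ : ι => (volume : Measure ℝ))
        (i := i)).eventually hz
    filter_upwards [h2] with x hx hxU
    have h3 : ∃ i, x i ∉ U := by
      by_contra hcon
      push Not at hcon
      exact hxU hcon
    obtain ⟨i, hi⟩ := h3
    have h4 : den φ x = 0 := by
      unfold den
      split_ifs
      · exact Finset.prod_eq_zero (Finset.mem_univ i) (hx i hi)
      · rfl
    rw [h4, mul_zero]
  rw [h1]
  simp only [IA_eq]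
  exact tendsto_setIntegral_of_monotone (fun n => bx_meas _ _) (bx_mono hAm hBm) hg.integrableOn

theorem core {φ : ℝ → ℝ} {C : ℝ} (hφ : Dn φ) (hC : 0 < C)
    (hbox : ∀ A B : ℝ, Gd φ A B → ∀ f : (ι → ℝ) → ℝ, ContDiff ℝ 1 f →
      IA (ι := ι) φ A B (fun _ => 1) * IA φ A B (fun x => f x ^ 2) - IA φ A B f ^ 2 ≤
        C * (IA (ι := ι) φ A B (fun _ => 1) * IA φ A B (gr f)))
    (f : (ι → ℝ) → ℝ) (hf : ContDiff ℝ 1 f) (hM : ∃ M, ∀ x, |f x| ≤ M) :
    ENNReal.ofReal ((∫ x : ι → ℝ, den φ x) * (∫ x, f x ^ 2 * den φ x) -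
      (∫ x, f x * den φ x) ^ 2) ≤
      ENNReal.ofReal (C * ∫ x : ι → ℝ, den φ x) * ∫⁻ x, ENNReal.ofReal (gr f x * den φ x) := by
  obtain ⟨U, hO, hCo, hN, hc, hp, hz⟩ := hφ.supp
  obtain ⟨A, B, hA, hB, hAB, hAm, hBm, hx⟩ := exhaust hO hCo hN
  obtain ⟨M, hM⟩ := hM
  have hdi : Integrable fun x : ι → ℝ => den φ x := den_int hφ.int
  have hd0 : ∀ x : ι → ℝ, 0 ≤ den φ x := fun x => den_nonneg hφ.nonneg x
  have hfc : Continuous f := hf.continuous
  have hM0 : 0 ≤ M := (abs_nonneg _).trans (hM 0)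
  have i1 : Integrable fun x : ι → ℝ => (1 : ℝ) * den φ x := by simpa using hdi
  have i2 : Integrable fun x => f x * den φ x := by
    refine hdi.bdd_mul (c := M) hfc.aestronglyMeasurable (Eventually.of_forall fun x => ?_)
    rw [Real.norm_eq_abs]
    exact hM x
  have i3 : Integrable fun x => f x ^ 2 * den φ x := by
    refine hdi.bdd_mul (c := M ^ 2) (hfc.pow 2).aestronglyMeasurable
      (Eventually.of_forall fun x => ?_)
    rw [Real.norm_eq_abs, abs_pow]
    exact pow_le_pow_left₀ (abs_nonneg _) (hM x) 2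
  have t1 := lim_IA hφ hCo hz hA hB hAm hBm hx (fun _ => (1 : ℝ)) i1
  have t2 := lim_IA hφ hCo hz hA hB hAm hBm hx f i2
  have t3 := lim_IA hφ hCo hz hA hB hAm hBm hx (fun x => f x ^ 2) i3
  simp only [one_mul] at t1
  have ht := ENNReal.tendsto_ofReal ((t1.mul t3).sub (t2.pow 2))
  refine le_of_tendsto' ht fun n => ?_
  have hG : Gd φ (A n) (B n) :=
    ⟨hAB n, hc.mono (hCo.out (hA n) (hB n)), fun x hx => hp x (hCo.out (hA n) (hB n) hx)⟩
  have hb := hbox (A n) (B n) hG f hf
  have hgc : Continuous fun x : ι → ℝ => gr f x := by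
    unfold gr
    have h1 : Continuous (fderiv ℝ f) := hf.continuous_fderiv (by norm_num)
    fun_prop
  have hg0 : ∀ x : ι → ℝ, 0 ≤ gr f x := fun x => Finset.sum_nonneg fun i _ => sq_nonneg _
  have hIg0 : 0 ≤ IA φ (A n) (B n) (gr f) := by
    rw [IA_eq]
    exact integral_nonneg fun x => mul_nonneg (hg0 x) (hd0 x)
  have hI1 : IA (ι := ι) φ (A n) (B n) (fun _ => 1) ≤ ∫ x : ι → ℝ, den φ x := by
    rw [IA_eq]
    simp only [one_mul]
    exact setIntegral_le_integral hdi (Eventually.of_forall hd0)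
  have hIg : ENNReal.ofReal (IA φ (A n) (B n) (gr f)) ≤
      ∫⁻ x, ENNReal.ofReal (gr f x * den φ x) := by
    rw [IA_eq, integral_eq_lintegral_of_nonneg_ae
      (Eventually.of_forall fun x => mul_nonneg (hg0 x) (hd0 x))
      ((hgc.aestronglyMeasurable.mul hdi.aestronglyMeasurable).restrict)]
    exact ENNReal.ofReal_toReal_le.trans (setLIntegral_le_lintegral _ _)
  have hZ : 0 ≤ ∫ x : ι → ℝ, den φ x := integral_nonneg hd0
  calc ENNReal.ofReal (IA (ι := ι) φ (A n) (B n) (fun _ => 1) *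
        IA φ (A n) (B n) (fun x => f x ^ 2) - IA φ (A n) (B n) f ^ 2)
      ≤ ENNReal.ofReal ((C * ∫ x : ι → ℝ, den φ x) * IA φ (A n) (B n) (gr f)) := by
        refine ENNReal.ofReal_le_ofReal (hb.trans ?_)
        rw [mul_assoc]
        exact mul_le_mul_of_nonneg_left (mul_le_mul_of_nonneg_right hI1 hIg0) hC.le
    _ = ENNReal.ofReal (C * ∫ x : ι → ℝ, den φ x) *
        ENNReal.ofReal (IA φ (A n) (B n) (gr f)) :=
        ENNReal.ofReal_mul (mul_nonneg hC.le hZ)
    _ ≤ _ := mul_le_mul_right hIg _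

end

end Pool.Agent.Q208.OP.Ful
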