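import Pool.Agent.Q208.OP.OneD

/-!
# Project OP of helper289: the one-dimensional inequality for cells (core of `S_1D`), part two
-/

set_option autoImplicit false

namespace Pool.Agent.Q208.OP.OneD

open MeasureTheory Set Filter Topology Q289.OP

theorem cs_ind {N : ℕ} (D e : Fin N → ℝ) (b : Fin (N + 1))
    (he : ∀ a, |e a| ≤ if (a : ℕ) = (b : ℕ) ∨ (a : ℕ) + 1 = (b : ℕ) then (1 : ℝ) else 0) :
    (∑ a, D a * e a) ^ 2 ≤
      2 * ∑ a, D a ^ 2 * (if (a : ℕ) = (b : ℕ) ∨ (a : ℕ) + 1 = (b : ℕ) then (1 : ℝ) else 0) := by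
  set i : Fin N → ℝ := fun a => if (a : ℕ) = (b : ℕ) ∨ (a : ℕ) + 1 = (b : ℕ) then (1 : ℝ) else 0
    with hi
  have hi2 : ∀ a, i a * i a = i a := by
    intro a
    simp only [hi]
    split_ifs <;> norm_num
  have hi0 : ∀ a, 0 ≤ i a := by
    intro a
    simp only [hi]
    split_ifs <;> norm_num
  have hi1 : ∀ a, i a ≤ 1 := by
    intro a
    simp only [hi]
    split_ifs <;> norm_num
  have h1 : ∀ a, D a * e a = (D a * i a) * e a := by
    intro a
    have h2 := he a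
    by_cases h3 : (a : ℕ) = (b : ℕ) ∨ (a : ℕ) + 1 = (b : ℕ)
    · simp only [hi, if_pos h3, mul_one]
    · rw [if_neg h3] at h2
      have h4 : e a = 0 := abs_eq_zero.1 (le_antisymm h2 (abs_nonneg _))
      rw [h4, mul_zero, mul_zero]
  rw [Finset.sum_congr rfl fun a _ => h1 a]
  refine (Finset.sum_mul_sq_le_sq_mul_sq Finset.univ (fun a => D a * i a) e).trans ?_
  have h2 : ∑ a, (D a * i a) ^ 2 = ∑ a, D a ^ 2 * i a := by
    refine Finset.sum_congr rfl fun a _ => ?_
    rw [mul_pow, pow_two (i a), hi2]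
  have h3 : ∑ a, e a ^ 2 ≤ 2 := by
    refine le_trans (Finset.sum_le_sum fun a _ => ?_) (ind_le b)
    have h4 := he a
    have h5 : e a ^ 2 = |e a| * |e a| := by rw [← sq_abs, pow_two]
    rw [h5]
    have h6 := abs_nonneg (e a)
    change |e a| * |e a| ≤ i a
    change |e a| ≤ i a at h4
    calc |e a| * |e a| ≤ i a * i a := mul_le_mul h4 h4 h6 (hi0 a)
      _ = i a := hi2 a
  rw [h2]
  have h7 : 0 ≤ ∑ a, D a ^ 2 * i a := Finset.sum_nonneg fun a _ => mul_nonneg (sq_nonneg _) (hi0 a)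
  calc (∑ a, D a ^ 2 * i a) * ∑ a, e a ^ 2 ≤ (∑ a, D a ^ 2 * i a) * 2 :=
        mul_le_mul_of_nonneg_left h3 h7
    _ = 2 * ∑ a, D a ^ 2 * i a := mul_comm _ _

theorem sq_sum_disj {N : ℕ} (u : Fin N → ℝ) (h : ∀ a a', a ≠ a' → u a * u a' = 0) :
    (∑ a, u a) ^ 2 = ∑ a, u a ^ 2 := by
  rw [pow_two, Finset.sum_mul_sum]
  refine Finset.sum_congr rfl fun a _ => ?_
  rw [Finset.sum_eq_single a (fun a' _ h1 => h a a' h1.symm) (fun h1 => absurd (Finset.mem_univ a) h1),
    pow_two]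

theorem D1_nonneg {N : ℕ} (q : Fin (N + 1) → ℝ) (hq : ∀ b, 0 < q b) (g : Fin (N + 1) → ℝ) :
    0 ≤ D1 q g := by
  unfold D1
  refine Finset.sum_nonneg fun a _ => ?_
  have h1 := hq a.castSucc
  have h2 := hq a.succ
  positivity

section

variable {φ : ℝ → ℝ} {A B : ℝ}

theorem fixedN (h0 : ∀ x, 0 ≤ φ x) (hi : Integrable φ) (hG : Gd φ A B) {C : ℝ} (hC : 0 < C)
    (hP : Poin1 φ C) (N : ℕ) {η δ₀ : ℝ} (hη : 0 < η)
    (hun : ∀ x ∈ Icc A B, ∀ y ∈ Icc A B, |x - y| ≤ δ₀ → φ x ≤ (1 + η) * φ y)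
    (hδ₀ : 2 * dl A B N ≤ δ₀) (g : Fin (N + 1) → ℝ) :
    ∃ m : ℝ, ∑ b, qq φ A B N b * (g b - m) ^ 2 ≤
      (2 * C * (1 + η) ^ 3 / dl A B N ^ 2 + 8 * (1 + 1 / η) * (1 + η) ^ 2) *
        D1 (qq φ A B N) g := by
  obtain ⟨s, h, hc, hd, hs0, hs1, hsl, hsr, hhl, hhr, ⟨M, hM⟩, hint, hle⟩ :=
    exists_s (1 + η) (by linarith)
  have hAB := hG.lt
  have hη1 : 0 < 1 + η := by linarith
  set δ := dl A B N with hδd
  have hδ : 0 < δ := dl_pos hAB N
  have hδN : δ * (N + 1) = B - A := dl_mul A B N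
  set q := qq φ A B N with hqd
  have hq : ∀ b, 0 < q b := fun b => q_pos hi hG b
  set D : Fin N → ℝ := fun a => g a.succ - g a.castSucc with hD
  set r : Fin N → ℝ := fun a => q a.castSucc * q a.succ / (q a.castSucc + q a.succ) with hr
  have hr0 : ∀ a, 0 < r a := by
    intro a
    have h1 := hq a.castSucc
    have h2 := hq a.succ
    simp only [hr]
    positivity
  set xa : Fin N → ℝ := fun a => A + δ * ((a : ℕ) + 1 / 2) with hxa
  have hM0 : 0 ≤ M := (abs_nonneg _).trans (hM 0)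
  have haN : ∀ a : Fin N, ((a : ℕ) : ℝ) + 2 ≤ N + 1 := by
    intro a
    have : (a : ℕ) + 1 ≤ N := a.2
    have h2 : (((a : ℕ) + 1 : ℕ) : ℝ) ≤ N := by exact_mod_cast this
    push_cast at h2
    linarith
  -- the points near the cells `a`, `a + 1`
  have hpt : ∀ (a : Fin N) (x : ℝ), A + δ * ((a : ℕ) + 1 / 2) ≤ x → x ≤ A + δ * ((a : ℕ) + 3 / 2) →
      x ∈ Icc A B := by
    intro a x h1 h2
    have h3 := haN a
    have h4 : (0 : ℝ) ≤ ((a : ℕ) : ℝ) := by positivity
    have h5 : δ * (((a : ℕ) : ℝ) + 3 / 2) ≤ δ * (N + 1) :=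
      mul_le_mul_of_nonneg_left (by linarith) hδ.le
    have h6 : 0 ≤ δ * (((a : ℕ) : ℝ) + 1 / 2) := by positivity
    exact ⟨by linarith, by linarith⟩
  have hnear1 : ∀ (a : Fin N) (x : ℝ), A + δ * ((a : ℕ) + 1 / 2) ≤ x →
      x ≤ A + δ * ((a : ℕ) + 3 / 2) →
      ∀ y ∈ Ico (A + dl A B N * (a.castSucc : ℕ)) (A + dl A B N * ((a.castSucc : ℕ) + 1)),
        |x - y| ≤ δ₀ := by
    intro a x h1 h2 y hy
    rw [Fin.val_castSucc, ← hδd] at hy
    rw [abs_le]
    constructor <;> nlinarith [hy.1, hy.2]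
  have hnear2 : ∀ (a : Fin N) (x : ℝ), A + δ * ((a : ℕ) + 1 / 2) ≤ x →
      x ≤ A + δ * ((a : ℕ) + 3 / 2) →
      ∀ y ∈ Ico (A + dl A B N * (a.succ : ℕ)) (A + dl A B N * ((a.succ : ℕ) + 1)),
        |x - y| ≤ δ₀ := by
    intro a x h1 h2 y hy
    rw [Fin.val_succ, ← hδd] at hy
    push_cast at hy
    rw [abs_le]
    constructor <;> nlinarith [hy.1, hy.2]
  have hrl : ∀ (a : Fin N) (x : ℝ), A + δ * ((a : ℕ) + 1 / 2) ≤ x →
      x ≤ A + δ * ((a : ℕ) + 3 / 2) → δ * φ x ≤ 2 * (1 + η) * r a := by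
    intro a x h1 h2
    have hx := hpt a x h1 h2
    have h3 := q_low hi hAB hun a.castSucc hx (hnear1 a x h1 h2)
    have h4 := q_low hi hAB hun a.succ hx (hnear2 a x h1 h2)
    rw [← hδd] at h3 h4
    have h5 : 0 < φ x := hG.pos x hx
    have h6 : 0 < δ * φ x / (1 + η) := by positivity
    have h7 : δ * φ x / (1 + η) / 2 ≤ r a := by
      refine par_low h6 ?_ ?_
      · rw [div_le_iff₀ hη1]; exact h3.trans_eq (mul_comm _ _)
      · rw [div_le_iff₀ hη1]; exact h4.trans_eq (mul_comm _ _)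
    rw [div_div, div_le_iff₀ (by positivity)] at h7
    linarith
  have hqs : ∀ a : Fin N, q a.castSucc + q a.succ ≤ 4 * (1 + η) ^ 2 * r a := by
    intro a
    have h1 : A + δ * (((a : ℕ) : ℝ) + 1 / 2) ≤ A + δ * (((a : ℕ) : ℝ) + 1) := by nlinarith
    have h2 : A + δ * (((a : ℕ) : ℝ) + 1) ≤ A + δ * (((a : ℕ) : ℝ) + 3 / 2) := by nlinarith
    have hx := hpt a _ h1 h2
    have h3 := q_up hi hAB hun a.castSucc hx (hnear1 a _ h1 h2)
    have h4 := q_up hi hAB hun a.succ hx (hnear2 a _ h1 h2)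
    have h5 := hrl a _ h1 h2
    rw [← hδd] at h3 h4
    have h6 : (1 + η) * (δ * φ (A + δ * (((a : ℕ) : ℝ) + 1))) ≤ (1 + η) * (2 * (1 + η) * r a) :=
      mul_le_mul_of_nonneg_left h5 hη1.le
    calc q a.castSucc + q a.succ ≤ (1 + η) * (2 * (1 + η) * r a) + (1 + η) * (2 * (1 + η) * r a) :=
          add_le_add (h3.trans h6) (h4.trans h6)
      _ = 4 * (1 + η) ^ 2 * r a := by ring
  -- the interpolation
  set G : ℝ → ℝ := fun x => g 0 + ∑ a, D a * s ((x - xa a) / δ) with hGd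
  set G' : ℝ → ℝ := fun x => ∑ a, D a * (h ((x - xa a) / δ) / δ) with hG'd
  have hder : ∀ x, HasDerivAt G (G' x) x := by
    intro x
    have h1 : HasDerivAt (fun x => ∑ a, D a * s ((x - xa a) / δ)) (G' x) x := by
      refine HasDerivAt.fun_sum fun a _ => ?_
      refine HasDerivAt.const_mul _ ?_
      have h2 : HasDerivAt (fun x => (x - xa a) / δ) (1 / δ) x :=
        ((hasDerivAt_id x).sub_const _).div_const δ
      have h3 := (hd ((x - xa a) / δ)).comp x h2
      rw [mul_one_div] at h3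
      exact h3
    exact h1.const_add (g 0)
  have hG'c : Continuous G' := by
    simp only [hG'd]
    fun_prop
  have hdG : deriv G = G' := funext fun x => (hder x).deriv
  have hGc : Continuous G := continuous_iff_continuousAt.2 fun x => (hder x).continuousAt
  have hG1 : ContDiff ℝ 1 G := by
    rw [contDiff_one_iff_deriv]
    exact ⟨fun x => (hder x).differentiableAt, by rw [hdG]; exact hG'c⟩
  have hGb : ∀ x, |G x| ≤ |g 0| + ∑ a, |D a| := by
    intro x
    refine (abs_add_le _ _).trans (add_le_add le_rfl ((Finset.abs_sum_le_sum_abs _ _).trans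
      (Finset.sum_le_sum fun a _ => ?_)))
    rw [abs_mul, abs_of_nonneg (hs0 _)]
    exact mul_le_of_le_one_right (abs_nonneg _) (hs1 _)
  have hG'b : ∀ x, |G' x| ≤ ∑ a, |D a| * (M / δ) := by
    intro x
    refine (Finset.abs_sum_le_sum_abs _ _).trans (Finset.sum_le_sum fun a _ => ?_)
    rw [abs_mul, abs_div, abs_of_pos hδ]
    exact mul_le_mul_of_nonneg_left (div_le_div_of_nonneg_right (hM _) hδ.le) (abs_nonneg _)
  have hpoi := hP G hG1 ⟨_, hGb⟩ ⟨_, fun x => by rw [hdG]; exact hG'b x⟩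
  rw [hdG] at hpoi
  set m : ℝ := (∫ y, G y * φ y) / ∫ y, φ y with hm
  refine ⟨m, ?_⟩
  -- energy
  have hen : ∫ x, G' x ^ 2 * φ x ≤ 2 * (1 + η) ^ 2 / δ ^ 2 * D1 q g := by
    have hpw : ∀ x, G' x ^ 2 * φ x ≤
        ∑ a, (D a ^ 2 / δ ^ 3 * (2 * (1 + η) * r a)) * h ((x - xa a) / δ) ^ 2 := by
      intro x
      have h1 : G' x ^ 2 = ∑ a, (D a * (h ((x - xa a) / δ) / δ)) ^ 2 := by
        simp only [hG'd]
        refine sq_sum_disj _ fun a a' haa => ?_
        have h2 : h ((x - xa a) / δ) = 0 ∨ h ((x - xa a') / δ) = 0 := by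
          by_contra hcon
          push Not at hcon
          have h3 : 0 < (x - xa a) / δ := by
            by_contra h4; exact hcon.1 (hhl _ (not_lt.1 h4))
          have h4 : (x - xa a) / δ < 1 := by
            by_contra h4; exact hcon.1 (hhr _ (not_lt.1 h4))
          have h5 : 0 < (x - xa a') / δ := by
            by_contra h4; exact hcon.2 (hhl _ (not_lt.1 h4))
          have h6 : (x - xa a') / δ < 1 := by
            by_contra h4; exact hcon.2 (hhr _ (not_lt.1 h4))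
          rw [lt_div_iff₀ hδ] at h3 h5
          rw [div_lt_iff₀ hδ] at h4 h6
          simp only [hxa] at h3 h4 h5 h6
          rcases lt_or_gt_of_ne haa with h7 | h7
          · have h8 : (a : ℕ) + 1 ≤ (a' : ℕ) := h7
            have h9 : ((a : ℕ) : ℝ) + 1 ≤ ((a' : ℕ) : ℝ) := by exact_mod_cast h8
            nlinarith
          · have h8 : (a' : ℕ) + 1 ≤ (a : ℕ) := h7
            have h9 : ((a' : ℕ) : ℝ) + 1 ≤ ((a : ℕ) : ℝ) := by exact_mod_cast h8
            nlinarith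
        rcases h2 with h2 | h2 <;> rw [h2] <;> ring
      rw [h1, Finset.sum_mul]
      refine Finset.sum_le_sum fun a _ => ?_
      by_cases h2 : h ((x - xa a) / δ) = 0
      · rw [h2]; simp
      · have h3 : 0 < (x - xa a) / δ := by
          by_contra h4; exact h2 (hhl _ (not_lt.1 h4))
        have h4 : (x - xa a) / δ < 1 := by
          by_contra h4; exact h2 (hhr _ (not_lt.1 h4))
        rw [lt_div_iff₀ hδ] at h3
        rw [div_lt_iff₀ hδ] at h4
        simp only [hxa] at h3 h4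
        have h5 := hrl a x (by linarith) (by nlinarith)
        have h6 : (D a * (h ((x - xa a) / δ) / δ)) ^ 2 * φ x =
            (D a ^ 2 / δ ^ 3 * h ((x - xa a) / δ) ^ 2) * (δ * φ x) := by
          field_simp
        rw [h6]
        calc (D a ^ 2 / δ ^ 3 * h ((x - xa a) / δ) ^ 2) * (δ * φ x)
            ≤ (D a ^ 2 / δ ^ 3 * h ((x - xa a) / δ) ^ 2) * (2 * (1 + η) * r a) :=
              mul_le_mul_of_nonneg_left h5 (by positivity)
          _ = _ := by ring
    have hia : ∀ a, Integrable fun x => h ((x - xa a) / δ) ^ 2 := by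
      intro a
      have h1 : Integrable fun x => h (x / δ) ^ 2 := hint.comp_div hδ.ne'
      exact h1.comp_sub_right (xa a)
    have hva : ∀ a, ∫ x, h ((x - xa a) / δ) ^ 2 ≤ δ * (1 + η) := by
      intro a
      have h1 : ∫ x, h ((x - xa a) / δ) ^ 2 = ∫ x, h (x / δ) ^ 2 :=
        integral_sub_right_eq_self (fun x => h (x / δ) ^ 2) (xa a)
      rw [h1, Measure.integral_comp_div (fun x => h x ^ 2) δ, abs_of_pos hδ, smul_eq_mul]
      exact mul_le_mul_of_nonneg_left hle hδ.le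
    have hib : Integrable fun x =>
        ∑ a, (D a ^ 2 / δ ^ 3 * (2 * (1 + η) * r a)) * h ((x - xa a) / δ) ^ 2 :=
      integrable_finsetSum _ fun a _ => (hia a).const_mul _
    calc ∫ x, G' x ^ 2 * φ x ≤ ∫ x, ∑ a, (D a ^ 2 / δ ^ 3 * (2 * (1 + η) * r a)) *
          h ((x - xa a) / δ) ^ 2 := by
          refine integral_mono_of_nonneg (Eventually.of_forall fun x => ?_) hib
            (Eventually.of_forall hpw)
          exact mul_nonneg (sq_nonneg _) (h0 x)
      _ = ∑ a, (D a ^ 2 / δ ^ 3 * (2 * (1 + η) * r a)) * ∫ x, h ((x - xa a) / δ) ^ 2 := by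
          rw [integral_finsetSum _ fun a _ => (hia a).const_mul _]
          exact Finset.sum_congr rfl fun a _ => integral_const_mul _ _
      _ ≤ ∑ a, (D a ^ 2 / δ ^ 3 * (2 * (1 + η) * r a)) * (δ * (1 + η)) := by
          refine Finset.sum_le_sum fun a _ => mul_le_mul_of_nonneg_left (hva a) ?_
          have := hr0 a
          positivity
      _ = 2 * (1 + η) ^ 2 / δ ^ 2 * D1 q g := by
          rw [D1, Finset.mul_sum]
          refine Finset.sum_congr rfl fun a _ => ?_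
          simp only [hr, hD]
          field_simp
  -- the error
  have her : ∀ b : Fin (N + 1), ∀ x ∈ Ico (A + dl A B N * (b : ℕ)) (A + dl A B N * ((b : ℕ) + 1)),
      (G x - g b) ^ 2 ≤ 2 * ∑ a, D a ^ 2 *
        (if (a : ℕ) = (b : ℕ) ∨ (a : ℕ) + 1 = (b : ℕ) then (1 : ℝ) else 0) := by
    intro b x hx
    rw [← hδd] at hx
    have h1 : G x - g b = ∑ a, D a * (s ((x - xa a) / δ) -
        (if (a : ℕ) < (b : ℕ) then 1 else 0)) := by
      rw [telescope g b]
      simp only [hGd]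
      rw [add_sub_add_left_eq_sub, ← Finset.sum_sub_distrib]
      refine Finset.sum_congr rfl fun a _ => ?_
      simp only [hD]
      ring
    rw [h1]
    refine cs_ind D _ b fun a => ?_
    have hs0' := hs0 ((x - xa a) / δ)
    have hs1' := hs1 ((x - xa a) / δ)
    by_cases h2 : (a : ℕ) = (b : ℕ) ∨ (a : ℕ) + 1 = (b : ℕ)
    · rw [if_pos h2, abs_le]
      split_ifs <;> constructor <;> linarith
    · rw [if_neg h2]
      push Not at h2
      rcases lt_or_gt_of_ne h2.1 with h3 | h3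
      · have h4 : (a : ℕ) + 2 ≤ (b : ℕ) := by omega
        have h5 : ((a : ℕ) : ℝ) + 2 ≤ ((b : ℕ) : ℝ) := by exact_mod_cast h4
        have h6 : 1 ≤ (x - xa a) / δ := by
          rw [le_div_iff₀ hδ]
          simp only [hxa]
          nlinarith [hx.1]
        rw [hsr _ h6, if_pos h3]
        simp
      · have h4 : (b : ℕ) + 1 ≤ (a : ℕ) := by omega
        have h5 : ((b : ℕ) : ℝ) + 1 ≤ ((a : ℕ) : ℝ) := by exact_mod_cast h4
        have h6 : (x - xa a) / δ ≤ 0 := by
          refine div_nonpos_of_nonpos_of_nonneg ?_ hδ.le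
          simp only [hxa]
          nlinarith [hx.2]
        rw [hsl _ h6, if_neg (by omega)]
        simp
  -- integrability
  have hGi : Integrable fun x => (G x - m) ^ 2 * φ x := by
    refine Integrable.bdd_mul (c := (|g 0| + ∑ a, |D a| + |m|) ^ 2) hi
      (by fun_prop) (Eventually.of_forall fun x => ?_)
    rw [Real.norm_eq_abs, abs_pow]
    refine pow_le_pow_left₀ (abs_nonneg _) ?_ 2
    refine (abs_sub _ _).trans ?_
    linarith [hGb x]
  have hnn : ∀ x, 0 ≤ (G x - m) ^ 2 * φ x := fun x => mul_nonneg (sq_nonneg _) (h0 x)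
  -- each cell
  have hcell : ∀ b : Fin (N + 1), q b * (g b - m) ^ 2 ≤
      (1 + η) * (∫ x in Ico (A + dl A B N * (b : ℕ)) (A + dl A B N * ((b : ℕ) + 1)),
        (G x - m) ^ 2 * φ x) +
      (1 + 1 / η) * (q b * (2 * ∑ a, D a ^ 2 *
        (if (a : ℕ) = (b : ℕ) ∨ (a : ℕ) + 1 = (b : ℕ) then (1 : ℝ) else 0))) := by
    intro b
    set E : ℝ := 2 * ∑ a, D a ^ 2 *
        (if (a : ℕ) = (b : ℕ) ∨ (a : ℕ) + 1 = (b : ℕ) then (1 : ℝ) else 0) with hE
    have h1 : q b * (g b - m) ^ 2 = ∫ x in Ico (A + dl A B N * (b : ℕ))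
        (A + dl A B N * ((b : ℕ) + 1)), (g b - m) ^ 2 * φ x := by
      rw [integral_const_mul, mul_comm]
      rfl
    have h2 : (1 + 1 / η) * (q b * E) = ∫ x in Ico (A + dl A B N * (b : ℕ))
        (A + dl A B N * ((b : ℕ) + 1)), ((1 + 1 / η) * E) * φ x := by
      rw [integral_const_mul, mul_comm (q b), ← mul_assoc]
      rfl
    rw [h1, h2, ← integral_const_mul, ← integral_add (hGi.integrableOn.const_mul _)
      (hi.integrableOn.const_mul _)]
    refine setIntegral_mono_on (hi.integrableOn.const_mul _)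
      ((hGi.integrableOn.const_mul _).add (hi.integrableOn.const_mul _)) measurableSet_Ico
      fun x hx => ?_
    have h3 := her b x hx
    rw [← hE] at h3
    have h4 : (g b - m) ^ 2 ≤ (1 + η) * (G x - m) ^ 2 + (1 + 1 / η) * (G x - g b) ^ 2 := by
      have h5 : (1 + η) * (G x - m) ^ 2 + (1 + 1 / η) * (G x - g b) ^ 2 - (g b - m) ^ 2 =
          (η * (G x - m) + (G x - g b)) ^ 2 / η := by
        field_simp
        ring
      have h6 : 0 ≤ (η * (G x - m) + (G x - g b)) ^ 2 / η := by positivity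
      linarith
    have h5 : (1 + 1 / η) * (G x - g b) ^ 2 ≤ (1 + 1 / η) * E :=
      mul_le_mul_of_nonneg_left h3 (by positivity)
    calc (g b - m) ^ 2 * φ x ≤ ((1 + η) * (G x - m) ^ 2 + (1 + 1 / η) * E) * φ x :=
          mul_le_mul_of_nonneg_right (h4.trans (by linarith)) (h0 x)
      _ = (1 + η) * ((G x - m) ^ 2 * φ x) + (1 + 1 / η) * E * φ x := by ring
  have hcells : ∑ b : Fin (N + 1), ∫ x in Ico (A + dl A B N * (b : ℕ))
      (A + dl A B N * ((b : ℕ) + 1)), (G x - m) ^ 2 * φ x ≤ ∫ x, (G x - m) ^ 2 * φ x := by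
    rw [← integral_biUnion_finset Finset.univ (fun b _ => measurableSet_Ico) ?_
      (fun b _ => hGi.integrableOn)]
    · exact setIntegral_le_integral hGi (Eventually.of_forall hnn)
    · intro b _ b' _ hbb
      refine Set.disjoint_left.2 fun x hx hx' => ?_
      rw [← hδd] at hx hx'
      rcases lt_or_gt_of_ne hbb with h7 | h7
      · have h8 : (b : ℕ) + 1 ≤ (b' : ℕ) := h7
        have h9 : ((b : ℕ) : ℝ) + 1 ≤ ((b' : ℕ) : ℝ) := by exact_mod_cast h8
        nlinarith [hx.2, hx'.1]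
      · have h8 : (b' : ℕ) + 1 ≤ (b : ℕ) := h7
        have h9 : ((b' : ℕ) : ℝ) + 1 ≤ ((b : ℕ) : ℝ) := by exact_mod_cast h8
        nlinarith [hx'.2, hx.1]
  have herr : ∑ b : Fin (N + 1), q b * (2 * ∑ a, D a ^ 2 *
        (if (a : ℕ) = (b : ℕ) ∨ (a : ℕ) + 1 = (b : ℕ) then (1 : ℝ) else 0)) ≤
      8 * (1 + η) ^ 2 * D1 q g := by
    calc ∑ b : Fin (N + 1), q b * (2 * ∑ a, D a ^ 2 *
          (if (a : ℕ) = (b : ℕ) ∨ (a : ℕ) + 1 = (b : ℕ) then (1 : ℝ) else 0))
        = ∑ a, 2 * D a ^ 2 * ∑ b : Fin (N + 1), q b *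
          (if (a : ℕ) = (b : ℕ) ∨ (a : ℕ) + 1 = (b : ℕ) then (1 : ℝ) else 0) := by
          simp only [Finset.mul_sum]
          rw [Finset.sum_comm]
          refine Finset.sum_congr rfl fun a _ => Finset.sum_congr rfl fun b _ => ?_
          ring
      _ ≤ ∑ a, 2 * D a ^ 2 * (4 * (1 + η) ^ 2 * r a) := by
          refine Finset.sum_le_sum fun a _ => mul_le_mul_of_nonneg_left ?_ (by positivity)
          exact (ind_q q (fun b => (hq b).le) a).trans (hqs a)
      _ = 8 * (1 + η) ^ 2 * D1 q g := by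
          rw [D1, Finset.mul_sum]
          refine Finset.sum_congr rfl fun a _ => ?_
          simp only [hr, hD]
          ring
  calc ∑ b, q b * (g b - m) ^ 2 ≤ ∑ b : Fin (N + 1),
      ((1 + η) * (∫ x in Ico (A + dl A B N * (b : ℕ)) (A + dl A B N * ((b : ℕ) + 1)),
        (G x - m) ^ 2 * φ x) +
      (1 + 1 / η) * (q b * (2 * ∑ a, D a ^ 2 *
        (if (a : ℕ) = (b : ℕ) ∨ (a : ℕ) + 1 = (b : ℕ) then (1 : ℝ) else 0)))) :=
        Finset.sum_le_sum fun b _ => hcell b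
    _ = (1 + η) * (∑ b : Fin (N + 1), ∫ x in Ico (A + dl A B N * (b : ℕ))
        (A + dl A B N * ((b : ℕ) + 1)), (G x - m) ^ 2 * φ x) +
      (1 + 1 / η) * ∑ b : Fin (N + 1), q b * (2 * ∑ a, D a ^ 2 *
        (if (a : ℕ) = (b : ℕ) ∨ (a : ℕ) + 1 = (b : ℕ) then (1 : ℝ) else 0)) := by
        rw [Finset.sum_add_distrib, Finset.mul_sum, Finset.mul_sum]
    _ ≤ (1 + η) * (C * (2 * (1 + η) ^ 2 / δ ^ 2 * D1 q g)) +
      (1 + 1 / η) * (8 * (1 + η) ^ 2 * D1 q g) := by
        refine add_le_add (mul_le_mul_of_nonneg_left ?_ hη1.le)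
          (mul_le_mul_of_nonneg_left herr (by positivity))
        exact hcells.trans (hpoi.trans (mul_le_mul_of_nonneg_left hen hC.le))
    _ = _ := by
        field_simp

end

end Pool.Agent.Q208.OP.OneD
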