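import Pool.Agent.Q208.OP.OneB

/-!
# Project OP of helper289: the one-dimensional inequality for cells (core of `S_1D`), part three
-/

set_option autoImplicit false

namespace Pool.Agent.Q208.OP.OneD

open MeasureTheory Set Filter Topology Q289.OP

theorem unif {φ : ℝ → ℝ} {A B : ℝ} (hG : Gd φ A B) {η : ℝ} (hη : 0 < η) :
    ∃ δ₀ : ℝ, 0 < δ₀ ∧ ∀ x ∈ Icc A B, ∀ y ∈ Icc A B, |x - y| ≤ δ₀ → φ x ≤ (1 + η) * φ y := by
  obtain ⟨z, hz, hmin⟩ := isCompact_Icc.exists_isMinOn (nonempty_Icc.2 hG.lt.le) hG.cont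
  have hz0 : 0 < φ z := hG.pos z hz
  have hu := isCompact_Icc.uniformContinuousOn_of_continuous hG.cont
  rw [Metric.uniformContinuousOn_iff] at hu
  obtain ⟨d, hd, h⟩ := hu (η * φ z) (by positivity)
  refine ⟨d / 2, by positivity, fun x hx y hy hxy => ?_⟩
  have h1 := h x hx y hy (by rw [Real.dist_eq]; linarith)
  rw [Real.dist_eq, abs_lt] at h1
  have h2 : φ z ≤ φ y := hmin hy
  nlinarith [h1.2]

theorem dl_tendsto (A B : ℝ) : Tendsto (fun N : ℕ => dl A B N) atTop (𝓝 0) := by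
  unfold dl
  have h1 : Tendsto (fun N : ℕ => ((N : ℝ) + 1)) atTop atTop :=
    tendsto_natCast_atTop_atTop.atTop_add tendsto_const_nhds
  exact h1.const_div_atTop (B - A)

theorem core (φ : ℝ → ℝ) (A B C : ℝ) (h0 : ∀ x, 0 ≤ φ x) (hi : Integrable φ) (hG : Gd φ A B)
    (hC : 0 < C) (hP : Poin1 φ C) (ε : ℝ) (hε : 0 < ε) :
    ∀ᶠ N : ℕ in atTop, P1 (qq φ A B N) (2 * C * (1 + ε) / dl A B N ^ 2) := by
  set η : ℝ := min 1 (ε / 14) with hηd
  have hη : 0 < η := lt_min one_pos (by positivity)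
  have hη1 : η ≤ 1 := min_le_left _ _
  have hη2 : η ≤ ε / 14 := min_le_right _ _
  have hcub : (1 + η) ^ 3 ≤ 1 + ε / 2 := by
    have h1 : η ^ 2 ≤ η := by nlinarith
    have h2 : η ^ 3 ≤ η := by nlinarith [mul_nonneg hη.le hη.le]
    nlinarith
  obtain ⟨δ₀, hδ₀, hun⟩ := unif hG hη
  have hK : 0 < 8 * (1 + 1 / η) * (1 + η) ^ 2 := by positivity
  have ht : Tendsto (fun N : ℕ => 8 * (1 + 1 / η) * (1 + η) ^ 2 * dl A B N ^ 2) atTop (𝓝 0) := by
    have h1 := ((dl_tendsto A B).pow 2).const_mul (8 * (1 + 1 / η) * (1 + η) ^ 2)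
    simpa using h1
  have e1 : ∀ᶠ N : ℕ in atTop, 8 * (1 + 1 / η) * (1 + η) ^ 2 * dl A B N ^ 2 < C * ε :=
    ht.eventually_lt_const (by positivity)
  have e2 : ∀ᶠ N : ℕ in atTop, dl A B N < δ₀ / 2 :=
    (dl_tendsto A B).eventually_lt_const (by positivity)
  filter_upwards [e1, e2] with N h1 h2
  intro g
  have hδ := dl_pos hG.lt N
  obtain ⟨m, hm⟩ := fixedN h0 hi hG hC hP N hη hun (by linarith) g
  refine ⟨m, hm.trans (mul_le_mul_of_nonneg_right ?_ (D1_nonneg _ (fun b => q_pos hi hG b) g))⟩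
  rw [div_add' _ _ _ (by positivity), div_le_div_iff_of_pos_right (by positivity)]
  have h3 : 2 * C * (1 + η) ^ 3 ≤ 2 * C * (1 + ε / 2) :=
    mul_le_mul_of_nonneg_left hcub (by positivity)
  linarith

end Pool.Agent.Q208.OP.OneD
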