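import Pool.Agent.Q289.OP.Defs

/-!
# Project OP of helper289: the one-dimensional inequality for cells (core of `S_1D`)
-/

set_option autoImplicit false

namespace Pool.Agent.Q208.OP.OneD

open MeasureTheory Set Filter Topology Q289.OP

/-- a trapezoid -/
noncomputable def tz (κ x : ℝ) : ℝ := max 0 (min 1 (min (x / κ) ((1 - x) / κ)))

theorem tz_cont (κ : ℝ) : Continuous (tz κ) := by
  unfold tz
  fun_prop

theorem tz_nonneg (κ x : ℝ) : 0 ≤ tz κ x := le_max_left _ _

theorem tz_le_one (κ x : ℝ) : tz κ x ≤ 1 := max_le zero_le_one (min_le_left _ _)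

theorem tz_left {κ x : ℝ} (hκ : 0 < κ) (hx : x ≤ 0) : tz κ x = 0 := by
  unfold tz
  refine max_eq_left ?_
  exact (min_le_right _ _).trans ((min_le_left _ _).trans (div_nonpos_of_nonpos_of_nonneg hx hκ.le))

theorem tz_right {κ x : ℝ} (hκ : 0 < κ) (hx : 1 ≤ x) : tz κ x = 0 := by
  unfold tz
  refine max_eq_left ?_
  exact (min_le_right _ _).trans ((min_le_right _ _).trans
    (div_nonpos_of_nonpos_of_nonneg (by linarith) hκ.le))

theorem tz_mid {κ x : ℝ} (hκ : 0 < κ) (h1 : κ ≤ x) (h2 : x ≤ 1 - κ) : tz κ x = 1 := by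
  unfold tz
  have h3 : 1 ≤ x / κ := (one_le_div hκ).2 h1
  have h4 : 1 ≤ (1 - x) / κ := (one_le_div hκ).2 (by linarith)
  rw [min_eq_left (le_min h3 h4)]
  exact max_eq_right zero_le_one

theorem tz_int {κ : ℝ} (hκ : 0 < κ) : Integrable (tz κ) := by
  refine (tz_cont κ).integrable_of_hasCompactSupport ?_
  refine HasCompactSupport.intro (K := Icc 0 1) isCompact_Icc fun x hx => ?_
  rcases lt_or_ge x 0 with h | h
  · exact tz_left hκ h.le
  · exact tz_right hκ (le_of_lt (by by_contra h2; exact hx ⟨h, not_lt.1 h2⟩))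

theorem tz_total {κ : ℝ} (hκ : 0 < κ) : ∫ x, tz κ x = ∫ x in (0 : ℝ)..1, tz κ x := by
  rw [intervalIntegral.integral_of_le zero_le_one]
  refine (setIntegral_eq_integral_of_forall_compl_eq_zero fun x hx => ?_).symm
  rcases le_or_gt x 0 with h | h
  · exact tz_left hκ h
  · exact tz_right hκ (le_of_lt (by by_contra h2; exact hx ⟨h, not_lt.1 h2⟩))

theorem exists_s (c : ℝ) (hc : 1 < c) : ∃ s h : ℝ → ℝ, Continuous h ∧
    (∀ x, HasDerivAt s (h x) x) ∧ (∀ x, 0 ≤ s x) ∧ (∀ x, s x ≤ 1) ∧ (∀ x, x ≤ 0 → s x = 0) ∧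
    (∀ x, 1 ≤ x → s x = 1) ∧ (∀ x, x ≤ 0 → h x = 0) ∧ (∀ x, 1 ≤ x → h x = 0) ∧
    (∃ M, ∀ x, |h x| ≤ M) ∧ Integrable (fun x => h x ^ 2) ∧ ∫ x, h x ^ 2 ≤ c := by
  have hc0 : 0 < c := by linarith
  set κ : ℝ := (1 - 1 / c) / 2 with hκd
  have hc1 : 1 / c < 1 := by rw [div_lt_one hc0]; exact hc
  have hc2 : 0 < 1 / c := by positivity
  have hκ : 0 < κ := by rw [hκd]; linarith
  set I : ℝ := ∫ x in (0 : ℝ)..1, tz κ x with hI
  have hI1 : 1 / c ≤ I := by
    have h1 : ∫ x in κ..(1 - κ), tz κ x = 1 / c := by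
      have h2 : ∫ x in κ..(1 - κ), tz κ x = ∫ x in κ..(1 - κ), (1 : ℝ) := by
        refine intervalIntegral.integral_congr fun x hx => ?_
        rw [uIcc_of_le (by rw [hκd]; linarith)] at hx
        exact tz_mid hκ hx.1 hx.2
      rw [h2, intervalIntegral.integral_const, smul_eq_mul, mul_one, hκd]
      ring
    rw [← h1, hI]
    refine intervalIntegral.integral_mono_interval hκ.le (by rw [hκd]; linarith)
      (by linarith) (Eventually.of_forall fun x => tz_nonneg κ x)
      ((tz_cont κ).intervalIntegrable _ _)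
  have hI0 : 0 < I := lt_of_lt_of_le hc2 hI1
  have hd : ∀ x, HasDerivAt (fun x => (∫ y in (0 : ℝ)..x, tz κ y) / I) (tz κ x / I) x := by
    intro x
    exact ((tz_cont κ).integral_hasStrictDerivAt 0 x).hasDerivAt.div_const I
  have hmono : Monotone fun x => (∫ y in (0 : ℝ)..x, tz κ y) / I := by
    refine monotone_of_deriv_nonneg (fun x => (hd x).differentiableAt) fun x => ?_
    rw [(hd x).deriv]
    exact div_nonneg (tz_nonneg κ x) hI0.le
  have hl : ∀ x : ℝ, x ≤ 0 → (∫ y in (0 : ℝ)..x, tz κ y) / I = 0 := by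
    intro x hx
    have h1 : ∫ y in (0 : ℝ)..x, tz κ y = ∫ y in (0 : ℝ)..x, (0 : ℝ) := by
      refine intervalIntegral.integral_congr fun y hy => ?_
      rw [uIcc_of_ge hx] at hy
      exact tz_left hκ hy.2
    rw [h1]
    simp
  have hr : ∀ x : ℝ, 1 ≤ x → (∫ y in (0 : ℝ)..x, tz κ y) / I = 1 := by
    intro x hx
    have h1 : ∫ y in (1 : ℝ)..x, tz κ y = ∫ y in (1 : ℝ)..x, (0 : ℝ) := by
      refine intervalIntegral.integral_congr fun y hy => ?_
      rw [uIcc_of_le hx] at hy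
      exact tz_right hκ hy.1
    rw [← intervalIntegral.integral_add_adjacent_intervals
      ((tz_cont κ).intervalIntegrable 0 1) ((tz_cont κ).intervalIntegrable 1 x), h1]
    simp only [intervalIntegral.integral_zero, add_zero]
    exact div_self hI0.ne'
  have hint : Integrable fun x => (tz κ x / I) ^ 2 := by
    refine Continuous.integrable_of_hasCompactSupport (by
      have := tz_cont κ
      fun_prop) ?_
    refine HasCompactSupport.intro (K := Icc 0 1) isCompact_Icc fun x hx => ?_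
    have : tz κ x = 0 := by
      rcases lt_or_ge x 0 with h | h
      · exact tz_left hκ h.le
      · exact tz_right hκ (le_of_lt (by by_contra h2; exact hx ⟨h, not_lt.1 h2⟩))
    rw [this]
    simp
  refine ⟨fun x => (∫ y in (0 : ℝ)..x, tz κ y) / I, fun x => tz κ x / I,
    (tz_cont κ).div_const I, hd, fun x => ?_, fun x => ?_, hl, hr, fun x hx => ?_, fun x hx => ?_,
    ⟨1 / I, fun x => ?_⟩, hint, ?_⟩
  · rcases le_total x 0 with h | h
    · exact (hl x h).ge
    · exact (hl 0 le_rfl).ge.trans (hmono h)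
  · rcases le_total x 1 with h | h
    · exact (hmono h).trans (hr 1 le_rfl).le
    · exact (hr x h).le
  · simp only
    rw [tz_left hκ hx, zero_div]
  · simp only
    rw [tz_right hκ hx, zero_div]
  · rw [abs_of_nonneg (div_nonneg (tz_nonneg κ x) hI0.le)]
    exact div_le_div_of_nonneg_right (tz_le_one κ x) hI0.le
  · calc ∫ x, (tz κ x / I) ^ 2 ≤ ∫ x, tz κ x / I ^ 2 := by
          refine integral_mono hint ((tz_int hκ).div_const _) fun x => ?_
          simp only
          rw [div_pow]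
          refine div_le_div_of_nonneg_right ?_ (by positivity)
          have h1 := tz_nonneg κ x
          have h2 := tz_le_one κ x
          nlinarith
      _ = 1 / I := by
          rw [integral_div, tz_total hκ, ← hI]
          field_simp
      _ ≤ c := by
          rw [div_le_iff₀ hI0]
          have : c * (1 / c) ≤ c * I := mul_le_mul_of_nonneg_left hI1 hc0.le
          rwa [mul_one_div_cancel hc0.ne'] at this

theorem par_low {p q t : ℝ} (ht : 0 < t) (hp : t ≤ p) (hq : t ≤ q) : t / 2 ≤ p * q / (p + q) := by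
  have h1 : 0 < p + q := by linarith
  rw [div_le_div_iff₀ two_pos h1]
  nlinarith

theorem telescope {N : ℕ} (g : Fin (N + 1) → ℝ) (b : Fin (N + 1)) :
    g b = g 0 + ∑ a : Fin N, (g a.succ - g a.castSucc) * (if (a : ℕ) < (b : ℕ) then 1 else 0) := by
  induction b using Fin.induction with
  | zero => simp
  | succ i ih =>
    have h1 : ∀ a : Fin N, (g a.succ - g a.castSucc) *
        (if (a : ℕ) < (i.succ : ℕ) then (1 : ℝ) else 0) =
        (g a.succ - g a.castSucc) * (if (a : ℕ) < (i.castSucc : ℕ) then 1 else 0) +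
          (if a = i then (g a.succ - g a.castSucc) else 0) := by
      intro a
      rcases lt_trichotomy a i with h | h | h
      · have h2 : (a : ℕ) < (i : ℕ) := h
        rw [if_pos (by rw [Fin.val_succ]; omega), if_pos (by simpa using h2), if_neg h.ne, add_zero]
      · subst h
        rw [if_pos (by rw [Fin.val_succ]; omega), if_neg (by simp), if_pos rfl]
        ring
      · have h2 : (i : ℕ) < (a : ℕ) := h
        rw [if_neg (by rw [Fin.val_succ]; omega),
          if_neg (by rw [Fin.val_castSucc]; omega), if_neg h.ne', add_zero]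
    rw [Finset.sum_congr rfl fun a _ => h1 a, Finset.sum_add_distrib, ← add_assoc, ← ih,
      Finset.sum_ite_eq' Finset.univ i, if_pos (Finset.mem_univ i)]
    ring

theorem int_const {a b c : ℝ} (h : a ≤ b) : ∫ _ in Ico a b, c = (b - a) * c := by
  rw [setIntegral_const, Measure.real, Real.volume_Ico, ENNReal.toReal_ofReal (by linarith),
    smul_eq_mul]

theorem ind_le {N : ℕ} (b : Fin (N + 1)) :
    ∑ a : Fin N, (if (a : ℕ) = (b : ℕ) ∨ (a : ℕ) + 1 = (b : ℕ) then (1 : ℝ) else 0) ≤ 2 := by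
  have h1 : ∑ a : Fin N, (if (a : ℕ) = (b : ℕ) then (1 : ℝ) else 0) ≤ 1 := by
    rw [Finset.sum_boole]
    have : (Finset.univ.filter fun a : Fin N => (a : ℕ) = (b : ℕ)).card ≤ 1 := by
      refine Finset.card_le_one.2 fun x hx y hy => ?_
      rw [Finset.mem_filter] at hx hy
      exact Fin.ext (hx.2.trans hy.2.symm)
    exact_mod_cast this
  have h2 : ∑ a : Fin N, (if (a : ℕ) + 1 = (b : ℕ) then (1 : ℝ) else 0) ≤ 1 := by
    rw [Finset.sum_boole]
    have : (Finset.univ.filter fun a : Fin N => (a : ℕ) + 1 = (b : ℕ)).card ≤ 1 := by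
      refine Finset.card_le_one.2 fun x hx y hy => ?_
      rw [Finset.mem_filter] at hx hy
      exact Fin.ext (by omega)
    exact_mod_cast this
  calc ∑ a : Fin N, (if (a : ℕ) = (b : ℕ) ∨ (a : ℕ) + 1 = (b : ℕ) then (1 : ℝ) else 0)
      ≤ ∑ a : Fin N, ((if (a : ℕ) = (b : ℕ) then (1 : ℝ) else 0) +
        (if (a : ℕ) + 1 = (b : ℕ) then (1 : ℝ) else 0)) := by
        refine Finset.sum_le_sum fun a _ => ?_
        split_ifs <;> first | omega | norm_num
    _ ≤ 2 := by rw [Finset.sum_add_distrib]; linarith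

theorem ind_q {N : ℕ} (q : Fin (N + 1) → ℝ) (hq : ∀ b, 0 ≤ q b) (a : Fin N) :
    ∑ b, q b * (if (a : ℕ) = (b : ℕ) ∨ (a : ℕ) + 1 = (b : ℕ) then (1 : ℝ) else 0) ≤
      q a.castSucc + q a.succ := by
  calc ∑ b, q b * (if (a : ℕ) = (b : ℕ) ∨ (a : ℕ) + 1 = (b : ℕ) then (1 : ℝ) else 0)
      ≤ ∑ b, ((if b = a.castSucc then q b else 0) + (if b = a.succ then q b else 0)) := by
        refine Finset.sum_le_sum fun b _ => ?_
        have h1 : b = a.castSucc ↔ (a : ℕ) = (b : ℕ) := by
          rw [Fin.ext_iff, Fin.val_castSucc, eq_comm]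
        have h2 : b = a.succ ↔ (a : ℕ) + 1 = (b : ℕ) := by
          rw [Fin.ext_iff, Fin.val_succ, eq_comm]
        have h3 := hq b
        simp only [h1, h2]
        split_ifs <;> first | omega | linarith
    _ = q a.castSucc + q a.succ := by
        rw [Finset.sum_add_distrib, Finset.sum_ite_eq' Finset.univ, Finset.sum_ite_eq' Finset.univ,
          if_pos (Finset.mem_univ _), if_pos (Finset.mem_univ _)]

theorem dl_pos {A B : ℝ} (h : A < B) (N : ℕ) : 0 < dl A B N := by
  unfold dl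
  have : 0 < B - A := sub_pos.2 h
  positivity

theorem dl_mul (A B : ℝ) (N : ℕ) : dl A B N * (N + 1) = B - A := by
  unfold dl
  field_simp

theorem cell_sub {A B : ℝ} (h : A < B) {N : ℕ} (b : Fin (N + 1)) {x : ℝ}
    (hx : x ∈ Ico (A + dl A B N * (b : ℕ)) (A + dl A B N * ((b : ℕ) + 1))) : x ∈ Icc A B := by
  have hδ := dl_pos h N
  have h1 := dl_mul A B N
  have hb : ((b : ℕ) : ℝ) + 1 ≤ N + 1 := by
    have : (b : ℕ) + 1 ≤ N + 1 := b.2
    exact_mod_cast this
  have hb0 : (0 : ℝ) ≤ ((b : ℕ) : ℝ) := by positivity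
  have h2 : dl A B N * (((b : ℕ) : ℝ) + 1) ≤ dl A B N * (N + 1) :=
    mul_le_mul_of_nonneg_left hb hδ.le
  have h3 : 0 ≤ dl A B N * ((b : ℕ) : ℝ) := by positivity
  exact ⟨by linarith [hx.1], by linarith [hx.2]⟩

section

variable {φ : ℝ → ℝ} {A B : ℝ} {N : ℕ} {η δ₀ : ℝ}

theorem q_low (hi : Integrable φ) (hAB : A < B)
    (hun : ∀ x ∈ Icc A B, ∀ y ∈ Icc A B, |x - y| ≤ δ₀ → φ x ≤ (1 + η) * φ y)
    (b : Fin (N + 1)) {x : ℝ} (hx : x ∈ Icc A B)
    (hy : ∀ y ∈ Ico (A + dl A B N * (b : ℕ)) (A + dl A B N * ((b : ℕ) + 1)), |x - y| ≤ δ₀) :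
    dl A B N * φ x ≤ (1 + η) * qq φ A B N b := by
  have hδ := dl_pos hAB N
  have h1 : dl A B N * φ x = ∫ _ in Ico (A + dl A B N * (b : ℕ))
      (A + dl A B N * ((b : ℕ) + 1)), φ x := by
    rw [int_const (by nlinarith)]
    ring
  rw [h1, qq, ← integral_const_mul]
  refine setIntegral_mono_on (integrableOn_const (by rw [Real.volume_Ico]; exact ENNReal.ofReal_ne_top))
    (hi.integrableOn.const_mul _) measurableSet_Ico fun y hy' => ?_
  exact hun x hx y (cell_sub hAB b hy') (hy y hy')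

theorem q_up (hi : Integrable φ) (hAB : A < B)
    (hun : ∀ x ∈ Icc A B, ∀ y ∈ Icc A B, |x - y| ≤ δ₀ → φ x ≤ (1 + η) * φ y)
    (b : Fin (N + 1)) {x : ℝ} (hx : x ∈ Icc A B)
    (hy : ∀ y ∈ Ico (A + dl A B N * (b : ℕ)) (A + dl A B N * ((b : ℕ) + 1)), |x - y| ≤ δ₀) :
    qq φ A B N b ≤ (1 + η) * (dl A B N * φ x) := by
  have hδ := dl_pos hAB N
  have h1 : (1 + η) * (dl A B N * φ x) = ∫ _ in Ico (A + dl A B N * (b : ℕ))
      (A + dl A B N * ((b : ℕ) + 1)), (1 + η) * φ x := by
    rw [int_const (by nlinarith)]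
    ring
  rw [h1, qq]
  refine setIntegral_mono_on hi.integrableOn
    (integrableOn_const (by rw [Real.volume_Ico]; exact ENNReal.ofReal_ne_top))
    measurableSet_Ico fun y hy' => ?_
  refine hun y (cell_sub hAB b hy') x hx ?_
  rw [abs_sub_comm]
  exact hy y hy'

theorem q_pos (hi : Integrable φ) (hG : Gd φ A B) (b : Fin (N + 1)) : 0 < qq φ A B N b := by
  have hδ := dl_pos hG.lt N
  rw [qq]
  have h1 : ContinuousOn φ (Icc (A + dl A B N * (b : ℕ)) (A + dl A B N * ((b : ℕ) + 1))) := by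
    refine hG.cont.mono fun x hx => ?_
    have h2 := dl_mul A B N
    have hb : ((b : ℕ) : ℝ) + 1 ≤ N + 1 := by
      have : (b : ℕ) + 1 ≤ N + 1 := b.2
      exact_mod_cast this
    have h3 : dl A B N * (((b : ℕ) : ℝ) + 1) ≤ dl A B N * (N + 1) :=
      mul_le_mul_of_nonneg_left hb hδ.le
    have h4 : 0 ≤ dl A B N * ((b : ℕ) : ℝ) := by positivity
    exact ⟨by linarith [hx.1], by linarith [hx.2]⟩
  rw [integral_Ico_eq_integral_Ioc, ← intervalIntegral.integral_of_le (by nlinarith)]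
  refine intervalIntegral.intervalIntegral_pos_of_pos_on hi.intervalIntegrable (fun x hx => ?_)
    (by nlinarith)
  exact hG.pos x (cell_sub hG.lt b ⟨hx.1.le, hx.2⟩)

end

end Pool.Agent.Q208.OP.OneD
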