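import Pool.Agent.Q208.OP.Ful
import Pool.Agent.Q289.OP.Stm2

/-!
# Project OP of helper289: `S_FUL`
-/

set_option autoImplicit false

namespace Pool.Agent.Q208.OP

open Q289.OP

theorem ful (h : S_BOX) : S_FUL := by
  intro ι _ _ _ φ C hφ hC hP
  refine ⟨Ful.den_int hφ.int, Ful.pos_den hφ, fun f hf hM => ?_⟩
  exact Ful.core hφ hC
    (fun A B hG f hf => h ι φ A B C hφ.nonneg hφ.int hG hC hP f hf) f hf hM

end Pool.Agent.Q208.OP
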