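import Pool.Agent.Q208.OP.OneC
import Pool.Agent.Q289.OP.Stm2

/-!
# Project OP of helper289: `S_1D`
-/

set_option autoImplicit false

namespace Pool.Agent.Q208.OP

theorem oned : Q289.OP.S_1D := fun φ A B C h0 hi hG hC hP ε hε =>
  OneD.core φ A B C h0 hi hG hC hP ε hε

end Pool.Agent.Q208.OP
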