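import Pool.Agent.Q103.OP.Defs

/-!
# Project OP: forms in two variables, tools
-/

set_option autoImplicit false

namespace Pool.Agent.Q208.OP

open Pool.Agent.W277.UH Polynomial
open Pool.Agent.Y706.CH (bK)
open Pool.Agent.Q103.OP

universe u v

section hev

variable {K : Type u} [Field K]

lemma hev_add' {R : Type*} [CommSemiring R] (n : ℕ) (f g : R[X]) (Z : R × R) :
    hev n (f + g) Z = hev n f Z + hev n g Z := by
  unfold hev
  rw [← Finset.sum_add_distrib]
  refine Finset.sum_congr rfl fun i _ => ?_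
  rw [coeff_add]
  ring

lemma hev_C_mul' {R : Type*} [CommSemiring R] (n : ℕ) (a : R) (f : R[X]) (Z : R × R) :
    hev n (C a * f) Z = a * hev n f Z := by
  unfold hev
  rw [Finset.mul_sum]
  refine Finset.sum_congr rfl fun i _ => ?_
  rw [coeff_C_mul]
  ring

lemma hev_neg' (n : ℕ) (f : K[X]) (Z : K × K) : hev n (-f) Z = -hev n f Z := by
  have h := hev_C_mul' n (-1) f Z
  rw [C_neg, C_1, neg_one_mul] at h
  rw [h]
  ring

lemma hev_sub' (n : ℕ) (f g : K[X]) (Z : K × K) : hev n (f - g) Z = hev n f Z - hev n g Z := by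
  rw [sub_eq_add_neg, hev_add', hev_neg']
  ring

/-- a vector with second coordinate zero -/
lemma snd_zero (Z : K × K) (h : Z.2 = 0) : Z = (Z.1, 0) := Prod.ext rfl h

lemma hev_mul' (m n : ℕ) (f g : K[X]) (hf : f.natDegree ≤ m) (hg : g.natDegree ≤ n)
    (Z : K × K) : hev (m + n) (f * g) Z = hev m f Z * hev n g Z := by
  by_cases h : Z.2 = 0
  · rw [snd_zero Z h, hev_zero, hev_zero, hev_zero, coeff_mul_add_eq_of_natDegree_le hf hg]
    ring
  · rw [hev_eval _ _ (natDegree_mul_le.trans (add_le_add hf hg)) Z h, hev_eval _ _ hf Z h,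
      hev_eval _ _ hg Z h, eval_mul]
    ring

lemma hev_lift (n k : ℕ) (f : K[X]) (hf : f.natDegree ≤ n) (Z : K × K) :
    hev (n + k) f Z = Z.2 ^ k * hev n f Z := by
  have h1 := hev_mul' n k f 1 hf (by simp) Z
  rw [mul_one] at h1
  rw [h1]
  have h2 : hev k (1 : K[X]) Z = Z.2 ^ k := by
    by_cases h : Z.2 = 0
    · rw [snd_zero Z h, hev_zero]
      rcases Nat.eq_zero_or_pos k with hk | hk
      · subst hk
        simp
      · rw [coeff_one, if_neg (by omega), zero_pow (by omega), zero_mul]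
    · rw [hev_eval _ _ (by simp) Z h, eval_one, mul_one]
  rw [h2]
  ring

lemma hev_comp (n d : ℕ) (A p q : K[X]) (hp : p.natDegree ≤ d) (hq : q.natDegree ≤ d)
    (Z : K × K) : hev (n * d) (hc n A p q) Z = hev n A (hev d p Z, hev d q Z) := by
  by_cases h : Z.2 = 0
  · rw [snd_zero Z h, hev_zero, hev_zero, hev_zero, hc_coeff n d A p q hp hq]
    have : ((p.coeff d * Z.1 ^ d, q.coeff d * Z.1 ^ d) : K × K) =
        (Z.1 ^ d) • ((p.coeff d, q.coeff d) : K × K) := by
      ext
      · simp only [Prod.smul_fst, smul_eq_mul]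
        ring
      · simp only [Prod.smul_snd, smul_eq_mul]
        ring
    rw [this, hev_smul, ← pow_mul, mul_comm d n]
    ring
  · rw [hev_eval _ _ (hc_degree n d A p q hp hq) Z h, hev_eval _ _ hp Z h, hev_eval _ _ hq Z h,
      hc_eval]
    have : ((Z.2 ^ d * eval (Z.1 / Z.2) p, Z.2 ^ d * eval (Z.1 / Z.2) q) : K × K) =
        (Z.2 ^ d) • ((eval (Z.1 / Z.2) p, eval (Z.1 / Z.2) q) : K × K) := rfl
    rw [this, hev_smul, ← pow_mul, mul_comm d n]

lemma hev_fst_snd (a b : K) (Z : K × K) : hev 1 (C a * X + C b) Z = a * Z.1 + b * Z.2 := by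
  unfold hev
  simp [Finset.sum_range_succ]
  ring

lemma natDegree_lin (a b : K) : (C a * X + C b : K[X]).natDegree ≤ 1 :=
  natDegree_linear_le

/-- composition with a matrix -/
lemma hev_lm (n : ℕ) (f : K[X]) (a b c e : K) (Z : K × K) :
    hev n (hc n f (C a * X + C b) (C c * X + C e)) Z = hev n f (lm a b c e Z) := by
  have h := hev_comp n 1 f (C a * X + C b) (C c * X + C e) (natDegree_lin a b)
    (natDegree_lin c e) Z
  rw [mul_one, hev_fst_snd, hev_fst_snd] at h
  exact h

lemma hc_lin_degree (n : ℕ) (f : K[X]) (a b c e : K) :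
    (hc n f (C a * X + C b) (C c * X + C e)).natDegree ≤ n := by
  have := hc_degree n 1 f _ _ (natDegree_lin a b) (natDegree_lin c e)
  rwa [mul_one] at this

/-- forms which agree everywhere -/
lemma hev_ext [Infinite K] (n : ℕ) (f g : K[X]) (hf : f.natDegree ≤ n) (hg : g.natDegree ≤ n)
    (h : ∀ z : K, hev n f (z, 1) = hev n g (z, 1)) : f = g := by
  apply Polynomial.funext
  intro z
  have := h z
  rwa [hev_one n f hf, hev_one n g hg] at this

lemma hev_map' {L : Type v} [Field L] (j : K →+* L) (n : ℕ) (f : K[X]) (Z : K × K) :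
    hev n (f.map j) (j Z.1, j Z.2) = j (hev n f Z) := by
  unfold hev
  rw [map_sum]
  refine Finset.sum_congr rfl fun i _ => ?_
  simp

lemma hc_map' {L : Type v} [Field L] (j : K →+* L) (n : ℕ) (f p q : K[X]) :
    (hc n f p q).map j = hc n (f.map j) (p.map j) (q.map j) := by
  unfold hc hev
  rw [Polynomial.map_sum]
  refine Finset.sum_congr rfl fun i _ => ?_
  simp

lemma Wr_map {L : Type v} [Field L] (j : K →+* L) (p q : K[X]) :
    (Wr p q).map j = Wr (p.map j) (q.map j) := by
  unfold Wr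
  simp [derivative_map]

end hev

section lmx

variable {K : Type u} [Field K]

lemma lm_inv {a b c e : K} (h : a * e - b * c ≠ 0) (Z : K × K) :
    lm a b c e (lm (e / (a * e - b * c)) (-b / (a * e - b * c)) (-c / (a * e - b * c))
      (a / (a * e - b * c)) Z) = Z := by
  obtain ⟨D, hD⟩ : ∃ D, D = a * e - b * c := ⟨_, rfl⟩
  rw [← hD] at h ⊢
  unfold lm
  ext
  · simp only
    field_simp
    linear_combination (-Z.1) * hD
  · simp only
    field_simp
    linear_combination (-Z.2) * hD

lemma lm_inv' {a b c e : K} (h : a * e - b * c ≠ 0) (Z : K × K) :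
    lm (e / (a * e - b * c)) (-b / (a * e - b * c)) (-c / (a * e - b * c))
      (a / (a * e - b * c)) (lm a b c e Z) = Z := by
  obtain ⟨D, hD⟩ : ∃ D, D = a * e - b * c := ⟨_, rfl⟩
  rw [← hD] at h ⊢
  unfold lm
  ext
  · simp only
    field_simp
    linear_combination (-Z.1) * hD
  · simp only
    field_simp
    linear_combination (-Z.2) * hD

lemma lm_smul (a b c e t : K) (Z : K × K) : lm a b c e (t • Z) = t • lm a b c e Z := by
  unfold lm
  ext
  · simp only [Prod.smul_fst, Prod.smul_snd, smul_eq_mul]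
    ring
  · simp only [Prod.smul_fst, Prod.smul_snd, smul_eq_mul]
    ring

lemma lm_zero (a b c e : K) : lm a b c e (0 : K × K) = 0 := by
  unfold lm
  simp

lemma lm_ne {a b c e : K} (h : a * e - b * c ≠ 0) {Z : K × K} (hZ : Z ≠ 0) :
    lm a b c e Z ≠ 0 := by
  intro h0
  apply hZ
  rw [← lm_inv' h Z, h0, lm_zero]

lemma wd_lm (a b c e : K) (Y Z : K × K) :
    wd (lm a b c e Y) (lm a b c e Z) = (a * e - b * c) * wd Y Z := by
  unfold wd lm
  ring

end lmx

section rat

variable {K : Type u} [Field K]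

lemma rat_degp {d : ℕ} {p q : K[X]} (h : Rat d p q) : p.natDegree ≤ d :=
  h.2 ▸ le_max_left _ _

lemma rat_degq {d : ℕ} {p q : K[X]} (h : Rat d p q) : q.natDegree ≤ d :=
  h.2 ▸ le_max_right _ _

lemma rat_coeff_ne {d : ℕ} {p q : K[X]} (h : Rat d p q) :
    p.coeff d ≠ 0 ∨ q.coeff d ≠ 0 := by
  by_contra hcon
  push Not at hcon
  obtain ⟨h1, h2⟩ := hcon
  have h3 : p = 0 ∨ p.natDegree < d := by
    rcases (rat_degp h).lt_or_eq with h4 | h4
    · exact Or.inr h4
    · rw [← h4] at h1
      exact Or.inl (leadingCoeff_eq_zero.mp h1)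
  have h3' : q = 0 ∨ q.natDegree < d := by
    rcases (rat_degq h).lt_or_eq with h4 | h4
    · exact Or.inr h4
    · rw [← h4] at h2
      exact Or.inl (leadingCoeff_eq_zero.mp h2)
  have hm := h.2
  have hco := h.1
  rcases h3 with h3 | h3 <;> rcases h3' with h3' | h3'
  · rw [h3, h3'] at hco
    exact not_isCoprime_zero_zero hco
  · rw [h3] at hco hm
    rw [isCoprime_zero_left] at hco
    have := natDegree_eq_zero_of_isUnit hco
    rw [natDegree_zero, this] at hm
    simp at hm
    omega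
  · rw [h3'] at hco hm
    rw [isCoprime_zero_right] at hco
    have := natDegree_eq_zero_of_isUnit hco
    rw [natDegree_zero, this] at hm
    simp at hm
    omega
  · omega

/-- a map of degree `d` has no zeros -/
lemma rat_bK_ne {d : ℕ} {p q : K[X]} (h : Rat d p q) {Z : K × K} (hZ : Z ≠ 0) :
    bK d p q Z ≠ 0 := by
  intro h0
  have h1 : hev d p Z = 0 := congrArg Prod.fst h0
  have h2 : hev d q Z = 0 := congrArg Prod.snd h0
  by_cases hZ2 : Z.2 = 0
  · have hZ1 : Z.1 ≠ 0 := fun h3 => hZ (Prod.ext h3 hZ2)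
    rw [snd_zero Z hZ2, hev_zero] at h1 h2
    rcases (rat_coeff_ne h) with h3 | h3
    · exact mul_ne_zero h3 (pow_ne_zero _ hZ1) h1
    · exact mul_ne_zero h3 (pow_ne_zero _ hZ1) h2
  · rw [hev_eval d p (rat_degp h) Z hZ2] at h1
    rw [hev_eval d q (rat_degq h) Z hZ2] at h2
    have e1 := (mul_eq_zero.mp h1).resolve_left (pow_ne_zero _ hZ2)
    have e2 := (mul_eq_zero.mp h2).resolve_left (pow_ne_zero _ hZ2)
    obtain ⟨a, b, hab⟩ := h.1
    have := congrArg (Polynomial.eval (Z.1 / Z.2)) hab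
    simp [e1, e2] at this

lemma rat_map {d : ℕ} {p q : K[X]} (h : Rat d p q) {L : Type v} [Field L] (j : K →+* L) :
    Rat d (p.map j) (q.map j) := by
  refine ⟨?_, ?_⟩
  · obtain ⟨a, b, hab⟩ := h.1
    refine ⟨a.map j, b.map j, ?_⟩
    rw [← Polynomial.map_mul, ← Polynomial.map_mul, ← Polynomial.map_add, hab, Polynomial.map_one]
  · rw [natDegree_map, natDegree_map]
    exact h.2

/-- the converse, over an algebraically closed field -/
lemma rat_of_ne {d : ℕ} {p q : K[X]} (hp : p.natDegree ≤ d) (hq : q.natDegree ≤ d)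
    {L : Type v} [Field L] [IsAlgClosed L] [Algebra K L]
    (h : ∀ Z : L × L, Z ≠ 0 → bK d (p.map (algebraMap K L)) (q.map (algebraMap K L)) Z ≠ 0) :
    Rat d p q := by
  have hpm : (p.map (algebraMap K L)).natDegree ≤ d := natDegree_map_le.trans hp
  have hqm : (q.map (algebraMap K L)).natDegree ≤ d := natDegree_map_le.trans hq
  refine ⟨(isCoprime_iff_aeval_ne_zero_of_isAlgClosed (k := K) L _ _).mpr ?_, ?_⟩
  · intro x
    by_contra hcon
    push Not at hcon
    obtain ⟨h1, h2⟩ := hcon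
    apply h (x, 1) (by simp)
    unfold bK
    rw [hev_one d _ hpm, hev_one d _ hqm, eval_map_algebraMap, eval_map_algebraMap, h1, h2]
    rfl
  · by_contra hne
    have hlt : max p.natDegree q.natDegree < d := lt_of_le_of_ne (max_le hp hq) hne
    apply h (1, 0) (by simp)
    unfold bK
    rw [hev_zero, hev_zero, coeff_eq_zero_of_natDegree_lt, coeff_eq_zero_of_natDegree_lt]
    · simp
    · exact natDegree_map_le.trans_lt ((le_max_right _ _).trans_lt hlt)
    · exact natDegree_map_le.trans_lt ((le_max_left _ _).trans_lt hlt)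

end rat

end Pool.Agent.Q208.OP
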